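import Pool.Agent.NH66.Intertwine.Power

/-!
# Dihedral polynomials of the same degree have a common quotient
-/

namespace NH66.Intertwine

open Polynomial

set_option linter.unusedSectionVars false

variable {K : Type*} [Field K] [CharZero K] [IsAlgClosed K]

/-- `P ≥ Q`: there is a nonconstant `π` with `π ∘ P = Q ∘ π`. -/
def Semi (P Q : K[X]) : Prop := ∃ π : K[X], 0 < π.natDegree ∧ π.comp P = Q.comp π

lemma Semi.refl (P : K[X]) : Semi P P := ⟨X, by simp, by simp⟩

lemma Semi.trans {P Q R : K[X]} (h1 : Semi P Q) (h2 : Semi Q R) : Semi P R := by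
  obtain ⟨π, hπ, e1⟩ := h1
  obtain ⟨ρ, hρ, e2⟩ := h2
  refine ⟨ρ.comp π, ?_, ?_⟩
  · rw [natDegree_comp]; exact Nat.mul_pos hρ hπ
  · rw [comp_assoc, e1, ← comp_assoc, e2, comp_assoc]

lemma semi_natDegree {P Q : K[X]} (h : Semi P Q) : P.natDegree = Q.natDegree := by
  obtain ⟨π, hπ, e1⟩ := h
  have := congrArg Polynomial.natDegree e1
  rw [natDegree_comp, natDegree_comp, mul_comm] at this
  exact Nat.eq_of_mul_eq_mul_right hπ this

lemma exists_comp_X_pow (f : K[X]) (m : ℕ) (hm : m ≠ 0) (h : ∀ k, f.coeff k ≠ 0 → m ∣ k) :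
    ∃ g : K[X], f = g.comp (X ^ m) := by
  refine ⟨contract m f, ?_⟩
  rw [← expand_eq_comp_X_pow]
  ext k
  rw [coeff_expand (Nat.pos_of_ne_zero hm)]
  split_ifs with hk
  · rw [coeff_contract hm, Nat.div_mul_cancel hk]
  · by_contra hne
    exact hk (h k hne)

/-- the Pell-type equation -/
def Pell (F : K[X]) : Prop :=
  C ((F.natDegree : K) ^ 2) * (F ^ 2 - 1) = F.derivative ^ 2 * (X ^ 2 - 1)

open scoped Classical in
lemma pell_of_sh (F : K[X]) (hF : 2 ≤ F.natDegree) (h : Sh F {1, -1} {1, -1}) : Pell F := by
  have h11 : (1 : K) ≠ -1 := by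
    intro h
    have : (2 : K) = 0 := by linear_combination h
    exact two_ne_zero this
  have hdvd := sharp_dvd F (by omega) _ _ h
  rw [Finset.prod_pair h11, Finset.prod_pair h11] at hdvd
  obtain ⟨q, hq⟩ := hdvd
  have hd1 := rhs_natDegree F (by omega) {1, -1}
  have hne := rhs_ne_zero F (by omega) {1, -1}
  rw [Finset.prod_pair h11] at hd1 hne
  have hd2 := prod_sub_natDegree F (by omega) {1, -1}
  rw [Finset.prod_pair h11] at hd2
  rw [Finset.card_pair h11] at hd1 hd2
  have hq0 : q ≠ 0 := by
    rintro rfl
    rw [mul_zero] at hq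
    exact hne hq
  have hl0 : (F - C 1) * (F - C (-1)) ≠ 0 := by
    intro h0
    rw [h0, zero_mul] at hq
    exact hne hq
  have hqd : q.natDegree = 0 := by
    have := congrArg natDegree hq
    rw [natDegree_mul hl0 hq0, hd1, hd2] at this
    omega
  obtain ⟨c, hc⟩ : ∃ c, q = C c := ⟨_, eq_C_of_natDegree_eq_zero hqd⟩
  have hF0 : F ≠ 0 := by
    rintro rfl
    simp at hF
  have hlc : c = (F.natDegree : K) ^ 2 := by
    have h1 := congrArg leadingCoeff hq
    have hdlc : F.derivative.leadingCoeff = F.leadingCoeff * F.natDegree := by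
      rw [leadingCoeff, natDegree_derivative_eq', coeff_derivative]
      have : F.natDegree - 1 + 1 = F.natDegree := by omega
      rw [this, coeff_natDegree]
      congr 1
      rw [← Nat.cast_add_one, this]
    have hl1 : (F - C 1).leadingCoeff = F.leadingCoeff := by
      apply leadingCoeff_sub_of_degree_lt
      apply lt_of_le_of_lt degree_C_le
      rw [← natDegree_pos_iff_degree_pos]
      omega
    have hl2 : (F - C (-1)).leadingCoeff = F.leadingCoeff := by
      apply leadingCoeff_sub_of_degree_lt
      apply lt_of_le_of_lt degree_C_le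
      rw [← natDegree_pos_iff_degree_pos]
      omega
    rw [leadingCoeff_mul, leadingCoeff_mul, leadingCoeff_mul, leadingCoeff_mul, leadingCoeff_pow,
      leadingCoeff_X_sub_C, leadingCoeff_X_sub_C, hl1, hl2, hdlc, hc, leadingCoeff_C] at h1
    have hlF : F.leadingCoeff ≠ 0 := leadingCoeff_ne_zero.2 hF0
    have h2 : F.leadingCoeff ^ 2 * c = F.leadingCoeff ^ 2 * (F.natDegree : K) ^ 2 := by
      linear_combination -h1
    exact mul_left_cancel₀ (pow_ne_zero 2 hlF) h2
  rw [Pell, ← hlc]
  rw [hc] at hq
  have e1 : (C (1 : K)) = 1 := C_1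
  have e2 : (C (-1 : K)) = -1 := by simp
  rw [e1, e2] at hq
  linear_combination -hq

lemma coeff_theta (H : K[X]) (k : ℕ) : (X * H.derivative).coeff k = k * H.coeff k := by
  cases k with
  | zero => simp
  | succ k =>
    rw [coeff_X_mul, coeff_derivative]
    push_cast
    ring

lemma ode_of_pell {F : K[X]} (hF : 1 ≤ F.natDegree) (h : Pell F) :
    C ((F.natDegree : K) ^ 2) * F = X * (X * F.derivative).derivative - F.derivative.derivative := by
  have h1 := congrArg derivative h
  simp only [derivative_mul, derivative_C, zero_mul, zero_add, derivative_sub, derivative_one, sub_zero,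
    derivative_pow, derivative_X, mul_one, Nat.cast_ofNat] at h1
  have hd : F.derivative ≠ 0 := derivative_ne_zero' hF
  have h20 : (C (2 : K)) ≠ 0 := by
    rw [Ne, C_eq_zero]; exact two_ne_zero
  have h2 : (C (2 : K) * F.derivative) * (C ((F.natDegree : K) ^ 2) * F) =
      (C (2 : K) * F.derivative) * (X * (X * F.derivative).derivative - F.derivative.derivative) := by
    simp only [derivative_mul, derivative_X, one_mul]
    simp only [Nat.reduceSub, pow_one] at h1
    linear_combination h1
  exact mul_left_cancel₀ (mul_ne_zero h20 hd) h2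

lemma ode_zero (D : ℕ) (H : K[X])
    (h : C ((D : K) ^ 2) * H = X * (X * H.derivative).derivative - H.derivative.derivative)
    (hd : H.natDegree < D) : H = 0 := by
  by_contra hne
  have h1 := congrArg (fun f => coeff f H.natDegree) h
  simp only [coeff_C_mul, coeff_sub, coeff_theta] at h1
  have h2 : H.derivative.derivative.coeff H.natDegree = 0 := by
    rw [coeff_derivative, coeff_derivative, coeff_eq_zero_of_natDegree_lt (by omega)]
    ring
  rw [h2, sub_zero] at h1
  have hlc : H.coeff H.natDegree ≠ 0 := by
    rw [coeff_natDegree]; exact leadingCoeff_ne_zero.2 hne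
  have h3 : ((D : K) ^ 2 - (H.natDegree : K) ^ 2) * H.coeff H.natDegree = 0 := by linear_combination h1
  rcases mul_eq_zero.1 h3 with h4 | h4
  · have h5 : ((D : K) - H.natDegree) * ((D : K) + H.natDegree) = 0 := by linear_combination h4
    rcases mul_eq_zero.1 h5 with h6 | h6
    · have : (D : K) = H.natDegree := sub_eq_zero.1 h6
      have : D = H.natDegree := by exact_mod_cast this
      omega
    · have : ((D + H.natDegree : ℕ) : K) = 0 := by push_cast; exact h6
      have : D + H.natDegree = 0 := by exact_mod_cast this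
      omega
  · exact hlc h4

lemma pell_unique {F G : K[X]} (hF : 1 ≤ F.natDegree) (hd : F.natDegree = G.natDegree)
    (h1 : Pell F) (h2 : Pell G) : F = G ∨ F = -G := by
  have hF0 : F ≠ 0 := by
    rintro rfl
    simp at hF
  have hG0 : G ≠ 0 := by
    rintro rfl
    simp at hd
    omega
  have o1 := ode_of_pell hF h1
  have o2 := ode_of_pell (by omega : 1 ≤ G.natDegree) h2
  set D := G.natDegree with hD
  rw [hd] at o1
  set H := C G.leadingCoeff * F - C F.leadingCoeff * G with hH
  have hode : C ((D : K) ^ 2) * H = X * (X * H.derivative).derivative - H.derivative.derivative := by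
    rw [hH]
    simp only [derivative_sub, derivative_mul, derivative_C, zero_mul, zero_add, derivative_X, one_mul] at o1 o2 ⊢
    linear_combination (C G.leadingCoeff) * o1 - (C F.leadingCoeff) * o2
  have hH0 : H = 0 := by
    by_contra hne
    have hlG : G.leadingCoeff ≠ 0 := leadingCoeff_ne_zero.2 hG0
    have hlF : F.leadingCoeff ≠ 0 := leadingCoeff_ne_zero.2 hF0
    have hlt : H.natDegree < D := by
      have h3 : H.degree < (C G.leadingCoeff * F).degree := by
        apply degree_sub_lt_left
        · rw [degree_C_mul hlG, degree_C_mul hlF, degree_eq_natDegree hF0, degree_eq_natDegree hG0, hd]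
        · exact mul_ne_zero (C_ne_zero.2 hlG) hF0
        · rw [leadingCoeff_mul, leadingCoeff_mul, leadingCoeff_C, leadingCoeff_C]
          ring
      have h4 := natDegree_lt_natDegree hne h3
      rwa [natDegree_C_mul hlG, hd] at h4
    exact hne (ode_zero D H hode hlt)
  have hlG : G.leadingCoeff ≠ 0 := leadingCoeff_ne_zero.2 hG0
  have hlF : F.leadingCoeff ≠ 0 := leadingCoeff_ne_zero.2 hF0
  set l := F.leadingCoeff / G.leadingCoeff with hl
  have hFG : F = C l * G := by
    have h3 : C G.leadingCoeff * F = C F.leadingCoeff * G := sub_eq_zero.1 hH0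
    have h4 : C G.leadingCoeff * F = C G.leadingCoeff * (C l * G) := by
      rw [h3, ← mul_assoc, ← C_mul, hl]
      congr 2
      field_simp
    exact mul_left_cancel₀ (C_ne_zero.2 hlG) h4
  have hl2 : l ^ 2 = 1 := by
    unfold Pell at h1 h2
    rw [hd, hFG] at h1
    rw [← hD] at h2
    simp only [derivative_mul, derivative_C, zero_mul, zero_add] at h1
    have h5 : C ((D : K) ^ 2) * (C (l ^ 2) - 1) = 0 := by
      have e0 : (C (l ^ 2) : K[X]) = C l ^ 2 := C_pow
      rw [e0]
      linear_combination h1 - C l ^ 2 * h2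
    rw [← C_1, ← C_sub, ← C_mul, C_eq_zero] at h5
    rcases mul_eq_zero.1 h5 with h6 | h6
    · exfalso
      have : (D : K) = 0 := by simpa using h6
      have : D = 0 := by exact_mod_cast this
      omega
    · linear_combination h6
  have hl3 : (l - 1) * (l + 1) = 0 := by linear_combination hl2
  rcases mul_eq_zero.1 hl3 with h | h
  · left
    rw [hFG, sub_eq_zero.1 h]; simp
  · right
    rw [hFG, eq_neg_of_add_eq_zero_left h]; simp

lemma pell_neg_comp {F : K[X]} (h : Pell F) : Pell (F.comp (-X)) := by
  have hnd : (F.comp (-X)).natDegree = F.natDegree := by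
    rw [natDegree_comp, natDegree_neg, natDegree_X, mul_one]
  unfold Pell at h ⊢
  rw [hnd, derivative_comp]
  have h1 := congrArg (fun f => f.comp (-X)) h
  simp only [mul_comp, C_comp, sub_comp, pow_comp, one_comp, X_comp] at h1
  rw [derivative_neg, derivative_X]
  linear_combination h1

/-- two solutions of the Pell type equation have a common quotient -/
lemma pell_quotient {F G : K[X]} (hF : 1 ≤ F.natDegree) (hd : F.natDegree = G.natDegree)
    (h1 : Pell F) (h2 : Pell G) : ∃ f, Semi F f ∧ Semi G f := by
  have heven : (F ^ 2).comp (-X) = F ^ 2 := by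
    rw [pow_comp]
    have hnd : (F.comp (-X)).natDegree = F.natDegree := by
      rw [natDegree_comp, natDegree_neg, natDegree_X, mul_one]
    rcases pell_unique (by omega) hnd (pell_neg_comp h1) h1 with h | h
    · rw [h]
    · rw [h]; ring
  obtain ⟨f, hf⟩ := exists_comp_X_pow (F ^ 2) 2 two_ne_zero (by
    intro k hk
    have h3 := congrArg (fun f => coeff f k) heven
    have e0 : (-X : K[X]) = C (-1) * X := by simp
    simp only [e0, comp_C_mul_X_coeff] at h3
    rcases Nat.even_or_odd k with h4 | h4
    · exact h4.two_dvd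
    · exfalso
      rw [h4.neg_one_pow] at h3
      apply hk
      have : (2 : K) * (F ^ 2).coeff k = 0 := by linear_combination -h3
      rcases mul_eq_zero.1 this with h5 | h5
      · exact absurd h5 two_ne_zero
      · exact h5)
  have hX2 : 0 < ((X : K[X]) ^ 2).natDegree := by rw [natDegree_X_pow]; norm_num
  have hsF : Semi F f := ⟨X ^ 2, hX2, by rw [pow_comp, X_comp, hf]⟩
  have hsG : Semi G f := by
    refine ⟨X ^ 2, hX2, ?_⟩
    rw [pow_comp, X_comp, ← hf]
    rcases pell_unique hF hd h1 h2 with h | h
    · rw [h]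
    · rw [h]; ring
  exact ⟨f, hsF, hsG⟩

/-- normalisation of a dihedral polynomial -/
lemma dih_norm {F : K[X]} (hF : 2 ≤ F.natDegree) (h : Dih F) :
    ∃ G, Semi F G ∧ Pell G := by
  classical
  obtain ⟨U, hU1, hU2⟩ := h
  have hU3 := inv_card F hF U hU2
  obtain ⟨p, q, hpq, rfl⟩ := Finset.card_eq_two.1 (by omega : U.card = 2)
  have hqp : q - p ≠ 0 := sub_ne_zero.2 (Ne.symm hpq)
  set L : K[X] := C ((q - p) / 2) * X + C ((p + q) / 2) with hL
  set M : K[X] := C (2 / (q - p)) * X - C ((p + q) / (q - p)) with hM
  have hLM : L.comp M = X := by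
    rw [hL, hM]
    simp only [add_comp, mul_comp, C_comp, X_comp]
    rw [mul_sub, ← mul_assoc, ← C_mul, ← C_mul]
    have e1 : (q - p) / 2 * (2 / (q - p)) = 1 := by field_simp
    have e2 : (q - p) / 2 * ((p + q) / (q - p)) = (p + q) / 2 := by field_simp
    rw [e1, e2]
    simp
  have hML : M.comp L = X := by
    rw [hL, hM]
    simp only [sub_comp, mul_comp, C_comp, X_comp]
    rw [mul_add, ← mul_assoc, ← C_mul, ← C_mul]
    have e1 : 2 / (q - p) * ((q - p) / 2) = 1 := by field_simp
    have e2 : 2 / (q - p) * ((p + q) / 2) = (p + q) / (q - p) := by field_simp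
    rw [e1, e2]
    simp
  have hMd : M.natDegree = 1 := by
    rw [hM]
    rw [natDegree_sub_C]
    exact natDegree_C_mul_X _ (div_ne_zero two_ne_zero hqp)
  have hLd : L.natDegree = 1 := by
    rw [hL]
    rw [natDegree_add_C]
    exact natDegree_C_mul_X _ (div_ne_zero hqp two_ne_zero)
  refine ⟨(M.comp F).comp L, ⟨M, by omega, ?_⟩, ?_⟩
  · rw [comp_assoc, hLM, comp_X]
  · apply pell_of_sh
    · rw [natDegree_comp, natDegree_comp, hMd, hLd]
      omega
    · have hL1 : ∀ x, L.eval x ∈ ({p, q} : Finset K) ↔ x ∈ ({1, -1} : Finset K) := by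
        intro x
        rw [hL]
        simp only [eval_add, eval_mul, eval_C, eval_X, Finset.mem_insert, Finset.mem_singleton]
        constructor
        · rintro (h | h)
          · right
            have : (q - p) * (x + 1) = 0 := by linear_combination 2 * h
            rcases mul_eq_zero.1 this with h' | h'
            · exact absurd h' hqp
            · linear_combination h'
          · left
            have : (q - p) * (x - 1) = 0 := by linear_combination 2 * h
            rcases mul_eq_zero.1 this with h' | h'
            · exact absurd h' hqp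
            · linear_combination h'
        · rintro (h | h)
          · right; rw [h]; ring
          · left; rw [h]; ring
      intro x hx hd
      have hLe : L.comp ((M.comp F).comp L) = F.comp L := by
        rw [← comp_assoc, ← comp_assoc, hLM, X_comp]
      have e1 : F.eval (L.eval x) ∈ ({p, q} : Finset K) := by
        rw [← eval_comp, ← hLe, eval_comp]
        exact (hL1 _).2 hx
      have e2 : F.derivative.eval (L.eval x) ≠ 0 := by
        intro h0
        apply hd
        rw [comp_assoc, derivative_comp, derivative_comp, eval_mul, eval_mul, eval_comp, h0]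
        ring
      exact (hL1 x).1 (hU2 _ e1 e2)

lemma dih_quotient {F G : K[X]} (hF : 2 ≤ F.natDegree) (hd : F.natDegree = G.natDegree)
    (h1 : Dih F) (h2 : Dih G) : ∃ f, Semi F f ∧ Semi G f := by
  obtain ⟨F', s1, p1⟩ := dih_norm hF h1
  obtain ⟨G', s2, p2⟩ := dih_norm (by omega) h2
  have d1 := semi_natDegree s1
  have d2 := semi_natDegree s2
  obtain ⟨f, t1, t2⟩ := pell_quotient (by omega) (by omega) p1 p2
  exact ⟨f, s1.trans t1, s2.trans t2⟩

end NH66.Intertwine
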