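import Mathlib

/-!
# Common left multiples of polynomials under composition (degree = lcm)
-/

namespace NH66.Intertwine

open Polynomial

set_option linter.unusedSectionVars false

variable {K : Type*} [Field K] [CharZero K]

/-- the degree of `(u+ρ)^b - u^b` when `deg ρ < deg u`. -/
lemma pow_sub_pow_deg (u ρ : K[X]) (hρ : ρ ≠ 0) (h : ρ.natDegree < u.natDegree) (b : ℕ) (hb : 1 ≤ b) :
    ((u + ρ) ^ b - u ^ b) ≠ 0 ∧
      ((u + ρ) ^ b - u ^ b).natDegree = (b - 1) * u.natDegree + ρ.natDegree := by
  have hdeg : ρ.degree < u.degree := degree_lt_degree h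
  have hu0 : u ≠ 0 := by
    rintro rfl
    simp at h
  have hlc : (u + ρ).leadingCoeff = u.leadingCoeff := leadingCoeff_add_of_degree_lt' hdeg
  have hnd : (u + ρ).natDegree = u.natDegree := natDegree_add_eq_left_of_natDegree_lt h
  have hur0 : u + ρ ≠ 0 := by
    intro h0
    rw [h0] at hnd
    simp at hnd
    omega
  set S : K[X] := ∑ i ∈ Finset.range b, (u + ρ) ^ i * u ^ (b - 1 - i) with hS
  have hfac : S * ρ = (u + ρ) ^ b - u ^ b := by
    have := geom_sum₂_mul (u + ρ) u b
    rw [show (u + ρ) - u = ρ by ring] at this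
    exact this
  have hterm : ∀ i ∈ Finset.range b, ((u + ρ) ^ i * u ^ (b - 1 - i)).natDegree = (b - 1) * u.natDegree := by
    intro i hi
    rw [Finset.mem_range] at hi
    rw [natDegree_mul (pow_ne_zero _ hur0) (pow_ne_zero _ hu0), natDegree_pow, natDegree_pow, hnd,
      ← add_mul]
    congr 1
    omega
  have hcoef : S.coeff ((b - 1) * u.natDegree) = b * u.leadingCoeff ^ (b - 1) := by
    rw [hS, finsetSum_coeff]
    rw [Finset.sum_congr rfl (g := fun _ => u.leadingCoeff ^ (b - 1))]
    · simp
    · intro i hi
      have h1 := hterm i hi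
      rw [← h1, coeff_natDegree, leadingCoeff_mul, leadingCoeff_pow, leadingCoeff_pow, hlc, ← pow_add]
      rw [Finset.mem_range] at hi
      congr 1
      omega
  have hc0 : S.coeff ((b - 1) * u.natDegree) ≠ 0 := by
    rw [hcoef]
    exact mul_ne_zero (by exact_mod_cast (by omega : b ≠ 0)) (pow_ne_zero _ (leadingCoeff_ne_zero.2 hu0))
  have hS0 : S ≠ 0 := by
    intro h0
    rw [h0] at hc0
    simp at hc0
  have hSd : S.natDegree = (b - 1) * u.natDegree := by
    apply le_antisymm
    · rw [hS]
      apply natDegree_sum_le_of_forall_le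
      intro i hi
      exact (hterm i hi).le
    · exact le_natDegree_of_ne_zero hc0
  rw [← hfac]
  refine ⟨mul_ne_zero hS0 hρ, ?_⟩
  rw [natDegree_mul hS0 hρ, hSd]

/-- base-`G` approximation: `H = p ∘ G + ρ` with `ρ = 0` or `deg ρ` not a multiple of `deg G`. -/
lemma decomp (G : K[X]) (hG : 1 ≤ G.natDegree) : ∀ (t : ℕ) (H : K[X]), H.natDegree ≤ t →
    ∃ p ρ : K[X], H = p.comp G + ρ ∧ (ρ = 0 ∨ ¬ G.natDegree ∣ ρ.natDegree) ∧
      ρ.natDegree ≤ H.natDegree := by
  intro t
  induction t with
  | zero =>
    intro H hH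
    refine ⟨H, 0, ?_, Or.inl rfl, by simp⟩
    rw [eq_C_of_natDegree_le_zero hH]
    simp
  | succ t ih =>
    intro H hH
    by_cases hd : G.natDegree ∣ H.natDegree
    · obtain ⟨j, hj⟩ := hd
      by_cases h0 : H.natDegree = 0
      · refine ⟨H, 0, ?_, Or.inl rfl, by simp⟩
        rw [eq_C_of_natDegree_eq_zero h0]
        simp
      · have hj0 : j ≠ 0 := by
          rintro rfl
          simp at hj
          exact h0 hj
        have hG0 : G ≠ 0 := by
          rintro rfl
          simp at hG
        set c : K := H.leadingCoeff / G.leadingCoeff ^ j with hc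
        have hlcG : G.leadingCoeff ^ j ≠ 0 := pow_ne_zero _ (leadingCoeff_ne_zero.2 hG0)
        set H' : K[X] := H - C c * G ^ j with hH'
        have hH0 : H ≠ 0 := by
          rintro rfl
          simp at h0
        have hc0 : c ≠ 0 := div_ne_zero (leadingCoeff_ne_zero.2 hH0) hlcG
        have hdeg1 : (C c * G ^ j).natDegree = H.natDegree := by
          rw [natDegree_C_mul hc0, natDegree_pow, hj, mul_comm]
        have hlt : H'.natDegree < H.natDegree := by
          have h1 : H'.degree < H.degree := by
            apply degree_sub_lt_left _ hH0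
            · rw [leadingCoeff_mul, leadingCoeff_C, leadingCoeff_pow, hc]
              field_simp
            · rw [degree_eq_natDegree hH0, degree_eq_natDegree (mul_ne_zero (C_ne_zero.2 hc0) (pow_ne_zero _ hG0)),
                hdeg1]
          by_cases hz : H' = 0
          · rw [hz]
            simp
            omega
          · exact natDegree_lt_natDegree hz h1
        obtain ⟨p, ρ, h1, h2, h3⟩ := ih H' (by omega)
        refine ⟨p + C c * X ^ j, ρ, ?_, h2, by omega⟩
        simp only [add_comp, mul_comp, C_comp, pow_comp, X_comp]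
        have : H = H' + C c * G ^ j := by rw [hH']; ring
        rw [this, h1]
        ring
    · exact ⟨0, H, by simp, Or.inr hd, le_rfl⟩

/-- approximate roots. -/
lemma approx_root (A : K[X]) (b c : ℕ) (hb : 1 ≤ b) (hc : 1 ≤ c) (hA : A.natDegree = b * c) :
    ∃ C' : K[X], C'.natDegree = c ∧ (A - C A.leadingCoeff * C' ^ b).natDegree ≤ (b - 1) * c := by
  have hA0 : A ≠ 0 := by
    rintro rfl
    simp at hA
    omega
  have hbc : 1 ≤ b * c := Nat.mul_pos hb hc
  set l := A.leadingCoeff with hl
  have hl0 : l ≠ 0 := leadingCoeff_ne_zero.2 hA0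
  have key : ∀ j : ℕ, j + 1 ≤ c → ∃ C' : K[X], C'.Monic ∧ C'.natDegree = c ∧
      (A - C l * C' ^ b).natDegree ≤ b * c - (j + 1) := by
    intro j
    induction j with
    | zero =>
      intro _
      refine ⟨X ^ c, monic_X_pow c, natDegree_X_pow c, ?_⟩
      rw [← pow_mul]
      have h1 : (A - C l * X ^ (c * b)).degree < A.degree := by
        apply degree_sub_lt_left _ hA0
        · rw [leadingCoeff_mul, leadingCoeff_C, leadingCoeff_X_pow, mul_one]
        · rw [degree_eq_natDegree hA0, hA, degree_C_mul_X_pow _ hl0, mul_comm]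
      by_cases hz : A - C l * X ^ (c * b) = 0
      · rw [hz]; simp
      · have := natDegree_lt_natDegree hz h1
        omega
    | succ j ih =>
      intro hj
      obtain ⟨C', hm, hd, hE⟩ := ih (by omega)
      set E := A - C l * C' ^ b with hEdef
      set e := E.coeff (b * c - (j + 1)) with he
      by_cases he0 : e = 0
      · refine ⟨C', hm, hd, ?_⟩
        rw [← hEdef]
        by_contra hcon
        push Not at hcon
        have heq : E.natDegree = b * c - (j + 1) := by omega
        have : E.leadingCoeff = 0 := by rw [leadingCoeff, heq]; exact he0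
        rw [leadingCoeff_eq_zero] at this
        rw [this] at hcon
        simp at hcon
      · set ε : K := e / (l * b) with hε
        have hb0 : (b : K) ≠ 0 := by exact_mod_cast (by omega : b ≠ 0)
        have hε0 : ε ≠ 0 := div_ne_zero he0 (mul_ne_zero hl0 hb0)
        set ρ : K[X] := C ε * X ^ (c - (j + 1)) with hρ
        have hρ0 : ρ ≠ 0 := mul_ne_zero (C_ne_zero.2 hε0) (pow_ne_zero _ X_ne_zero)
        have hρd : ρ.natDegree = c - (j + 1) := natDegree_C_mul_X_pow _ _ hε0
        have hlt : ρ.natDegree < C'.natDegree := by rw [hρd, hd]; omega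
        have hlcC : (C' + ρ).Monic := hm.add_of_left (degree_lt_degree hlt)
        have hdC : (C' + ρ).natDegree = c := by
          rw [natDegree_add_eq_left_of_natDegree_lt hlt, hd]
        refine ⟨C' + ρ, hlcC, hdC, ?_⟩
        obtain ⟨hne, hdeg⟩ := pow_sub_pow_deg C' ρ hρ0 hlt b hb
        set D := (C' + ρ) ^ b - C' ^ b with hD
        have hDdeg : D.natDegree = b * c - (j + 1) := by
          rw [hdeg, hd, hρd]
          obtain ⟨b', rfl⟩ := Nat.exists_eq_add_of_le hb
          have : 1 + b' - 1 = b' := by omega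
          rw [this, add_mul, one_mul]
          omega
        -- leading coefficient of D
        have hDlc : D.coeff (b * c - (j + 1)) = b * ε := by
          have hfac : (∑ i ∈ Finset.range b, (C' + ρ) ^ i * C' ^ (b - 1 - i)) * ρ = D := by
            have := geom_sum₂_mul (C' + ρ) C' b
            rw [show (C' + ρ) - C' = ρ by ring] at this
            exact this
          set S := ∑ i ∈ Finset.range b, (C' + ρ) ^ i * C' ^ (b - 1 - i) with hS
          have hS0 : S ≠ 0 := by
            intro h0
            rw [h0, zero_mul] at hfac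
            exact hne hfac.symm
          have hterm : ∀ i ∈ Finset.range b, ((C' + ρ) ^ i * C' ^ (b - 1 - i)).Monic := by
            intro i _
            exact (hlcC.pow i).mul (hm.pow _)
          have htd : ∀ i ∈ Finset.range b, ((C' + ρ) ^ i * C' ^ (b - 1 - i)).natDegree = (b - 1) * c := by
            intro i hi
            rw [Finset.mem_range] at hi
            rw [(hlcC.pow i).natDegree_mul (hm.pow _), hlcC.natDegree_pow, hm.natDegree_pow, hdC, hd, ← add_mul]
            congr 1
            omega
          have hSc : S.coeff ((b - 1) * c) = b := by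
            rw [hS, finsetSum_coeff, Finset.sum_congr rfl (g := fun _ => (1 : K))]
            · simp
            · intro i hi
              have := hterm i hi
              rw [Monic, leadingCoeff, htd i hi] at this
              exact this
          have hSd : S.natDegree = (b - 1) * c := by
            have h1 := hdeg
            rw [← hfac, natDegree_mul hS0 hρ0, hd] at h1
            omega
          rw [← hfac]
          have : b * c - (j + 1) = S.natDegree + ρ.natDegree := by
            rw [← natDegree_mul hS0 hρ0, hfac, hDdeg]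
          rw [this, coeff_mul_degree_add_degree, leadingCoeff, hSd, hSc, hρ, leadingCoeff_C_mul_X_pow]
        have hexp : A - C l * (C' + ρ) ^ b = E - C l * D := by
          rw [hEdef, hD]; ring
        rw [hexp]
        have hle : (E - C l * D).natDegree ≤ b * c - (j + 1) := by
          apply (natDegree_sub_le _ _).trans
          apply max_le hE
          rw [natDegree_C_mul hl0, hDdeg]
        have hco : (E - C l * D).coeff (b * c - (j + 1)) = 0 := by
          rw [coeff_sub, coeff_C_mul, hDlc, ← he, hε]
          field_simp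
          ring
        by_contra hcon
        push Not at hcon
        have heq : (E - C l * D).natDegree = b * c - (j + 1) := by omega
        have : (E - C l * D).leadingCoeff = 0 := by rw [leadingCoeff, heq]; exact hco
        rw [leadingCoeff_eq_zero] at this
        rw [this] at hcon
        simp at hcon
  obtain ⟨C', -, hd, hE⟩ := key (c - 1) (by omega)
  refine ⟨C', hd, hE.trans ?_⟩
  obtain ⟨b', rfl⟩ := Nat.exists_eq_add_of_le hb
  have : 1 + b' - 1 = b' := by omega
  rw [this, add_mul, one_mul]
  omega

/-- If `A ∘ G = B ∘ H` then there is a common element of degree `lcm`. -/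
lemma exists_lcm (A B G H : K[X]) (hG : 1 ≤ G.natDegree) (hH : 1 ≤ H.natDegree) (hB : 1 ≤ B.natDegree)
    (hF : A.comp G = B.comp H) :
    ∃ A₁ B₁ : K[X], A₁.comp G = B₁.comp H ∧
      (B₁.comp H).natDegree = Nat.lcm G.natDegree H.natDegree := by
  set k := G.natDegree with hk
  set l := H.natDegree with hl
  set n := Nat.lcm k l with hn
  have hn1 : 1 ≤ n := Nat.lcm_pos hG hH
  have hN1 : (A.comp G).natDegree = A.natDegree * k := natDegree_comp
  have hN2 : (B.comp H).natDegree = B.natDegree * l := natDegree_comp
  have hdvd : n ∣ B.natDegree * l := by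
    apply Nat.lcm_dvd
    · rw [← hN2, ← hF, hN1]
      exact dvd_mul_left _ _
    · exact dvd_mul_left _ _
  obtain ⟨b₁, hb₁⟩ := hdvd
  obtain ⟨b₀, hb₀⟩ : l ∣ n := Nat.dvd_lcm_right k l
  have hb₁1 : 1 ≤ b₁ := by
    rcases Nat.eq_zero_or_pos b₁ with h | h
    · rw [h, mul_zero] at hb₁
      have := Nat.mul_pos hB hH
      omega
    · exact h
  have hb₀1 : 1 ≤ b₀ := by
    rcases Nat.eq_zero_or_pos b₀ with h | h
    · rw [h, mul_zero] at hb₀
      omega
    · exact h
  have hBdeg : B.natDegree = b₁ * b₀ := by
    have : B.natDegree * l = (b₁ * b₀) * l := by rw [hb₁, hb₀]; ring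
    exact Nat.eq_of_mul_eq_mul_right hH this
  obtain ⟨C', hC, hE⟩ := approx_root B b₁ b₀ hb₁1 hb₀1 hBdeg
  set lc := B.leadingCoeff with hlc
  have hlc0 : lc ≠ 0 := by
    apply leadingCoeff_ne_zero.2
    rintro rfl
    simp at hB
  have hu : (C'.comp H).natDegree = n := by
    rw [natDegree_comp, hC, hb₀, mul_comm]
  obtain ⟨p, ρ, h1, h2, h3⟩ := decomp G hG _ (C'.comp H) le_rfl
  rcases h2 with h2 | h2
  · refine ⟨p, C', ?_, hu⟩
    rw [h1, h2, add_zero]
  · exfalso
    have hρ0 : ρ ≠ 0 := by
      rintro rfl
      simp at h2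
    have hρlt : ρ.natDegree < n := by
      rcases Nat.lt_or_ge ρ.natDegree n with h | h
      · exact h
      · exfalso
        apply h2
        have : ρ.natDegree = n := by omega
        rw [this]
        exact Nat.dvd_lcm_left k l
    set w := p.comp G with hw
    have hwd : w.natDegree = n := by
      have : w = C'.comp H + (-ρ) := by rw [h1]; ring
      rw [this, natDegree_add_eq_left_of_natDegree_lt]
      · exact hu
      · rw [natDegree_neg, hu]; exact hρlt
    obtain ⟨hne, hdeg⟩ := pow_sub_pow_deg w ρ hρ0 (by rw [hwd]; exact hρlt) b₁ hb₁1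
    have hkey : (A - C lc * p ^ b₁).comp G =
        C lc * ((w + ρ) ^ b₁ - w ^ b₁) + (B - C lc * C' ^ b₁).comp H := by
      simp only [sub_comp, mul_comp, C_comp, pow_comp]
      rw [hF, ← h1]
      ring
    have hdE : ((B - C lc * C' ^ b₁).comp H).natDegree ≤ (b₁ - 1) * n := by
      rw [natDegree_comp]
      calc _ ≤ (b₁ - 1) * b₀ * l := Nat.mul_le_mul_right _ hE
        _ = (b₁ - 1) * n := by rw [hb₀]; ring
    have hρ1 : 1 ≤ ρ.natDegree := by
      rcases Nat.eq_zero_or_pos ρ.natDegree with h | h
      · rw [h] at h2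
        simp at h2
      · exact h
    have hfin : ((A - C lc * p ^ b₁).comp G).natDegree = (b₁ - 1) * n + ρ.natDegree := by
      rw [hkey, natDegree_add_eq_left_of_natDegree_lt]
      · rw [natDegree_C_mul hlc0, hdeg, hwd]
      · rw [natDegree_C_mul hlc0, hdeg, hwd]
        omega
    rw [natDegree_comp] at hfin
    apply h2
    have h4 : k ∣ (b₁ - 1) * n + ρ.natDegree := by
      rw [← hfin]
      exact dvd_mul_left _ _
    exact (Nat.dvd_add_right (Dvd.dvd.mul_left (Nat.dvd_lcm_left k l) _)).1 h4

/-- the intersection of `K[G]` and `K[H]` is generated by an element of degree lcm. -/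
lemma inter_gen (A₁ B₁ G H : K[X]) (hG : 1 ≤ G.natDegree) (hH : 1 ≤ H.natDegree)
    (hΛ : A₁.comp G = B₁.comp H) (hd : (B₁.comp H).natDegree = Nat.lcm G.natDegree H.natDegree) :
    ∀ (t : ℕ) (A B : K[X]), A.comp G = B.comp H → (B.comp H).natDegree ≤ t →
      ∃ p : K[X], B.comp H = p.comp (B₁.comp H) := by
  intro t
  induction t with
  | zero =>
    intro A B _ ht
    refine ⟨B.comp H, ?_⟩
    rw [eq_C_of_natDegree_le_zero ht]
    simp
  | succ t ih =>
    intro A B hAB ht
    by_cases h0 : (B.comp H).natDegree = 0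
    · refine ⟨B.comp H, ?_⟩
      rw [eq_C_of_natDegree_eq_zero h0]
      simp
    set Λ := B₁.comp H with hΛd
    have hn1 : 1 ≤ Λ.natDegree := by
      rw [hd]; exact Nat.lcm_pos hG hH
    have hdvd : Λ.natDegree ∣ (B.comp H).natDegree := by
      rw [hd]
      apply Nat.lcm_dvd
      · rw [← hAB, natDegree_comp]
        exact dvd_mul_left _ _
      · rw [natDegree_comp]
        exact dvd_mul_left _ _
    obtain ⟨j, hj⟩ := hdvd
    have hΛ0 : Λ ≠ 0 := by
      intro h
      rw [h] at hn1
      simp at hn1
    set F := B.comp H with hF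
    have hF0 : F ≠ 0 := by
      intro h
      rw [h] at h0
      simp at h0
    set c : K := F.leadingCoeff / Λ.leadingCoeff ^ j with hc
    have hlcG : Λ.leadingCoeff ^ j ≠ 0 := pow_ne_zero _ (leadingCoeff_ne_zero.2 hΛ0)
    have hc0 : c ≠ 0 := div_ne_zero (leadingCoeff_ne_zero.2 hF0) hlcG
    have hdeg1 : (C c * Λ ^ j).natDegree = F.natDegree := by
      rw [natDegree_C_mul hc0, natDegree_pow, hj, mul_comm]
    have hlt : (F - C c * Λ ^ j).natDegree < F.natDegree := by
      have h1 : (F - C c * Λ ^ j).degree < F.degree := by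
        apply degree_sub_lt_left _ hF0
        · rw [leadingCoeff_mul, leadingCoeff_C, leadingCoeff_pow, hc]
          field_simp
        · rw [degree_eq_natDegree hF0, degree_eq_natDegree (mul_ne_zero (C_ne_zero.2 hc0) (pow_ne_zero _ hΛ0)),
            hdeg1]
      by_cases hz : (F - C c * Λ ^ j) = 0
      · rw [hz]
        simp
        omega
      · exact natDegree_lt_natDegree hz h1
    have e1 : (B - C c * B₁ ^ j).comp H = F - C c * Λ ^ j := by
      simp [sub_comp, mul_comp, pow_comp, hF, hΛd]
    have e2 : (A - C c * A₁ ^ j).comp G = F - C c * Λ ^ j := by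
      simp only [sub_comp, mul_comp, pow_comp, C_comp]
      rw [hAB, hΛ]
    obtain ⟨p, hp⟩ := ih (A - C c * A₁ ^ j) (B - C c * B₁ ^ j) (e2.trans e1.symm) (by rw [e1]; omega)
    refine ⟨p + C c * X ^ j, ?_⟩
    rw [e1] at hp
    simp only [add_comp, mul_comp, C_comp, pow_comp, X_comp]
    rw [← hp]
    ring

/-- right factors of the same polynomial whose degrees divide. -/
lemma right_factor (A B G H : K[X]) (hG : 1 ≤ G.natDegree) (hH : 1 ≤ H.natDegree) (hB : 1 ≤ B.natDegree)
    (hF : A.comp G = B.comp H) (hdvd : G.natDegree ∣ H.natDegree) :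
    ∃ p : K[X], H = p.comp G := by
  obtain ⟨A₁, B₁, h1, h2⟩ := exists_lcm A B G H hG hH hB hF
  have hl : Nat.lcm G.natDegree H.natDegree = H.natDegree := Nat.lcm_eq_right hdvd
  rw [hl, natDegree_comp] at h2
  have hB₁ : B₁.natDegree = 1 := by
    have : B₁.natDegree * H.natDegree = 1 * H.natDegree := by rw [h2, one_mul]
    exact Nat.eq_of_mul_eq_mul_right hH this
  set α := B₁.coeff 1 with hα
  set β := B₁.coeff 0 with hβ
  have hform : B₁ = C α * X + C β := eq_X_add_C_of_natDegree_le_one hB₁.le
  have hα0 : α ≠ 0 := by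
    intro h
    rw [hform, h] at hB₁
    simp at hB₁
  refine ⟨C α⁻¹ * (A₁ - C β), ?_⟩
  simp only [mul_comp, sub_comp, C_comp]
  rw [h1, hform]
  simp only [add_comp, mul_comp, C_comp, X_comp]
  rw [add_sub_cancel_right, ← mul_assoc, ← C_mul, inv_mul_cancel₀ hα0]
  simp

/-- right cancellation in composition. -/
lemma comp_right_cancel {A B G : K[X]} (hG : 1 ≤ G.natDegree) (h : A.comp G = B.comp G) : A = B := by
  have h1 : (A - B).comp G = 0 := by rw [sub_comp, h, sub_self]
  rw [comp_eq_zero_iff] at h1
  rcases h1 with h1 | h1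
  · exact sub_eq_zero.1 h1
  · exfalso
    rw [h1.2] at hG
    simp at hG

end NH66.Intertwine
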