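import Pool.Agent.NH66.Intertwine.Rot

/-!
# Intertwined polynomials have a common quotient
-/

namespace NH66.Intertwine

open Polynomial

set_option linter.unusedSectionVars false

variable {K : Type*} [Field K] [CharZero K] [IsAlgClosed K]

/-- all exponents of `F` are congruent to its degree modulo `m`. -/
def SymP (F : K[X]) (m : ℕ) : Prop := ∀ k, F.coeff k ≠ 0 → k ≡ F.natDegree [MOD m]

lemma exists_prim (m : ℕ) (hm : m ≠ 0) : ∃ ζ : K, IsPrimitiveRoot ζ m := by
  have : NeZero (m : K) := ⟨by exact_mod_cast hm⟩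
  exact HasEnoughRootsOfUnity.exists_primitiveRoot K m

lemma prim_pow_eq_iff {ζ : K} {m : ℕ} (h : IsPrimitiveRoot ζ m) (hm : m ≠ 0) (a b : ℕ) :
    ζ ^ a = ζ ^ b ↔ a ≡ b [MOD m] := by
  have hζ : ζ ≠ 0 := h.ne_zero hm
  have key : ∀ a b : ℕ, a ≤ b → (ζ ^ a = ζ ^ b ↔ a ≡ b [MOD m]) := by
    intro a b hab
    rw [Nat.modEq_iff_dvd' hab, ← h.pow_eq_one_iff_dvd]
    constructor
    · intro h1
      have : ζ ^ a * ζ ^ (b - a) = ζ ^ a * 1 := by
        rw [← pow_add, Nat.add_sub_cancel' hab, mul_one, h1]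
      exact mul_left_cancel₀ (pow_ne_zero _ hζ) this
    · intro h1
      have h2 : ζ ^ b = ζ ^ a * ζ ^ (b - a) := by rw [← pow_add, Nat.add_sub_cancel' hab]
      rw [h2, h1, mul_one]
  rcases le_total a b with hab | hab
  · exact key a b hab
  · rw [eq_comm, key b a hab]
    exact ⟨fun h => h.symm, fun h => h.symm⟩

lemma symP_of_rot {F : K[X]} {m : ℕ} (hm : m ≠ 0) {ζ : K} (h : IsPrimitiveRoot ζ m) (c : K) (hF : F ≠ 0)
    (hrot : F.comp (C ζ * X) = C c * F) : SymP F m := by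
  have hc := rot_leading hF hrot
  intro k hk
  have h2 := congrArg (fun q => coeff q k) hrot
  simp only [comp_C_mul_X_coeff, coeff_C_mul] at h2
  rw [← prim_pow_eq_iff h hm]
  have : F.coeff k * ζ ^ k = F.coeff k * ζ ^ F.natDegree := by rw [h2, hc, mul_comm]
  exact mul_left_cancel₀ hk this

lemma rot_of_symP {F : K[X]} {m : ℕ} (hm : m ≠ 0) {ζ : K} (h : IsPrimitiveRoot ζ m) (hs : SymP F m) :
    F.comp (C ζ * X) = C (ζ ^ F.natDegree) * F := by
  ext k
  rw [comp_C_mul_X_coeff, coeff_C_mul]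
  by_cases hk : F.coeff k = 0
  · rw [hk]; ring
  · rw [(prim_pow_eq_iff h hm _ _).2 (hs k hk)]; ring

lemma eq_C_mul_of_pow_eq {F G : K[X]} {m : ℕ} (hm : m ≠ 0) (h : F ^ m = G ^ m) :
    ∃ c : K, c ≠ 0 ∧ F = C c * G := by
  obtain ⟨ζ, hζ⟩ := exists_prim (K := K) m hm
  have hζ' : IsPrimitiveRoot (C ζ : K[X]) m := hζ.map_of_injective C_injective
  have h1 := hζ'.pow_sub_pow_eq_prod_sub_mul F G (Nat.pos_of_ne_zero hm)
  rw [h, sub_self, eq_comm, Finset.prod_eq_zero_iff] at h1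
  obtain ⟨ξ, hξ, h2⟩ := h1
  have hξm : ξ ^ m = 1 := (mem_nthRootsFinset (Nat.pos_of_ne_zero hm) _).1 hξ
  have hξ0 : ξ ≠ 0 := by
    rintro rfl
    rw [zero_pow hm] at hξm
    exact zero_ne_one hξm
  have hd : ξ.natDegree = 0 := by
    have := congrArg natDegree hξm
    rw [natDegree_pow, natDegree_one] at this
    rcases Nat.mul_eq_zero.1 this with h3 | h3
    · exact absurd h3 hm
    · exact h3
  have hξC : ξ = C (ξ.coeff 0) := eq_C_of_natDegree_eq_zero hd
  refine ⟨ξ.coeff 0, ?_, ?_⟩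
  · intro h0
    rw [h0, C_0] at hξC
    exact hξ0 hξC
  · rw [← hξC]
    exact sub_eq_zero.1 h2

/-- S1 -/
lemma symP_of_semi_pow {R F : K[X]} {m : ℕ} (hm : m ≠ 0) (hR : R ≠ 0) (h : R ^ m = F.comp (X ^ m)) :
    SymP R m := by
  obtain ⟨ζ, hζ⟩ := exists_prim (K := K) m hm
  have h1 : (R.comp (C ζ * X)) ^ m = R ^ m := by
    rw [← pow_comp, h, comp_assoc]
    congr 1
    rw [pow_comp, X_comp, mul_pow, ← C_pow, hζ.pow_eq_one, C_1, one_mul]
  obtain ⟨c, hc, h2⟩ := eq_C_mul_of_pow_eq hm h1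
  exact symP_of_rot hm hζ c hR h2

/-- S2 -/
lemma pow_of_symP {R : K[X]} {m : ℕ} (hm : m ≠ 0) (h : SymP R m) : ∃ f : K[X], R ^ m = f.comp (X ^ m) := by
  obtain ⟨ζ, hζ⟩ := exists_prim (K := K) m hm
  exact rot_pow hm hζ (rot_of_symP hm hζ h)

/-- S3 -/
lemma symP_lcm {R : K[X]} {m m' : ℕ} (h1 : SymP R m) (h2 : SymP R m') : SymP R (Nat.lcm m m') := by
  intro k hk
  have a1 := h1 k hk
  have a2 := h2 k hk
  rw [Nat.modEq_iff_dvd] at a1 a2 ⊢
  rw [Int.natCast_dvd] at a1 a2 ⊢
  exact Nat.lcm_dvd a1 a2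

/-- S5 -/
lemma symP_of_iter {P : K[X]} {n q : ℕ} (hn : 2 ≤ n) (hP : 2 ≤ P.natDegree) (hq : q ≠ 0)
    (h : SymP (iter P n) q) : SymP P q := by
  have hP0 : P ≠ 0 := by
    rintro rfl
    simp at hP
  by_cases hq1 : q = 1
  · intro k _
    rw [hq1]
    exact Nat.modEq_one
  obtain ⟨ζ, hζ⟩ := exists_prim (K := K) q hq
  have hζ0 : ζ ≠ 0 := hζ.ne_zero hq
  have hζ1 : ζ ≠ 1 := by
    intro h1
    rw [h1] at hζ
    exact hq1 (hζ.eq_orderOf.trans orderOf_one)
  have hrot := rot_of_symP hq hζ h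
  set c := ζ ^ (iter P n).natDegree with hc
  have hc0 : c ≠ 0 := pow_ne_zero _ hζ0
  have hζX : (C ζ * X : K[X]).natDegree = 1 := natDegree_C_mul_X _ hζ0
  have hex : ∀ i, i ≤ n → ∃ l : K[X], l.natDegree = 1 ∧ (iter P i).comp (C ζ * X) = l.comp (iter P i) := by
    intro i hi
    apply lin_unique ((C c * X).comp (iter P (n - i))) (iter P (n - i)) (iter P i) ((iter P i).comp (C ζ * X))
    · rw [natDegree_iter]; exact Nat.one_le_pow _ _ (by omega)
    · rw [natDegree_comp, hζX, mul_one]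
    · rw [natDegree_iter]; exact Nat.one_le_pow _ _ (by omega)
    · rw [comp_assoc, ← iter_add, ← comp_assoc, ← iter_add, Nat.sub_add_cancel hi, hrot]
      simp
  obtain ⟨l1, d1, h1⟩ := hex 1 (by omega)
  obtain ⟨l2, d2, h2⟩ := hex 2 (by omega)
  rw [iter_one] at h1
  -- `P` is centred
  have hcen : P.coeff (P.natDegree - 1) = 0 := by
    obtain ⟨a, b, ha, hab⟩ := linear_form d1
    rw [hab] at h1
    have e1 := congrArg (fun q => coeff q P.natDegree) h1
    have e2 := congrArg (fun q => coeff q (P.natDegree - 1)) h1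
    simp only [comp_C_mul_X_coeff, add_comp, mul_comp, C_comp, X_comp, coeff_add, coeff_C_mul] at e1 e2
    rw [coeff_C, if_neg (by omega), add_zero] at e1 e2
    have hlc : P.coeff P.natDegree ≠ 0 := by
      rw [coeff_natDegree]; exact leadingCoeff_ne_zero.2 hP0
    have ha' : a = ζ ^ P.natDegree := by
      have : P.coeff P.natDegree * a = P.coeff P.natDegree * ζ ^ P.natDegree := by rw [e1, mul_comm]
      exact mul_left_cancel₀ hlc this
    have e3 : P.coeff (P.natDegree - 1) * (ζ ^ (P.natDegree - 1) * (1 - ζ)) = 0 := by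
      have : ζ ^ P.natDegree = ζ ^ (P.natDegree - 1) * ζ := by
        rw [← pow_succ]; congr 1; omega
      rw [ha', this] at e2
      linear_combination e2
    rcases mul_eq_zero.1 e3 with h3 | h3
    · exact h3
    · exfalso
      rcases mul_eq_zero.1 h3 with h4 | h4
      · exact (pow_ne_zero _ hζ0) h4
      · exact hζ1 (sub_eq_zero.1 h4).symm
  have a1 : l2.comp P = (X.comp P).comp l1 := by
    apply comp_right_cancel (G := P) (by omega)
    have e : iter P 2 = P.comp P := by rw [iter_succ, iter_one]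
    rw [e] at h2
    rw [comp_assoc, ← h2, X_comp, comp_assoc, comp_assoc, ← h1]
  obtain ⟨e, he, rfl⟩ := shift P l2 X l1 hP hcen d2 natDegree_X d1 a1
  refine symP_of_rot hq hζ e hP0 ?_
  rw [h1]
  simp

/-- centring of the semiconjugacy -/
lemma centre_power {R F : K[X]} (hR : 2 ≤ R.natDegree) (hcen : R.coeff (R.natDegree - 1) = 0)
    {v a c : K} (hc : c ≠ 0) {m : ℕ} (hm : m ≠ 0)
    (h : (C v + C c * (X - C a) ^ m).comp R = F.comp (C v + C c * (X - C a) ^ m)) :
    ∃ v', C v + C c * (X - C a) ^ m = C v' + C c * X ^ m := by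
  by_cases hm1 : m = 1
  · refine ⟨v - c * a, ?_⟩
    rw [hm1]
    simp only [pow_one, C_sub, C_mul]
    ring
  obtain ⟨ζ, hζ⟩ := exists_prim (K := K) m hm
  have hζ0 : ζ ≠ 0 := hζ.ne_zero hm
  have hζ1 : ζ ≠ 1 := by
    intro h1
    rw [h1] at hζ
    exact hm1 (hζ.eq_orderOf.trans orderOf_one)
  set σ : K[X] := C ζ * X + C ((1 - ζ) * a) with hσ
  have hσd : σ.natDegree = 1 := by
    rw [hσ, natDegree_add_C]; exact natDegree_C_mul_X _ hζ0
  have hμσ : (C v + C c * (X - C a) ^ m).comp σ = C v + C c * (X - C a) ^ m := by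
    simp only [add_comp, mul_comp, C_comp, pow_comp, sub_comp, X_comp]
    congr 2
    have : σ - C a = C ζ * (X - C a) := by
      rw [hσ]
      simp only [C_mul, C_sub, C_1]
      ring
    rw [this, mul_pow, ← C_pow, hζ.pow_eq_one, C_1, one_mul]
  have h1 : (C v + C c * (X - C a) ^ m).comp (R.comp σ) = (C v + C c * (X - C a) ^ m).comp R := by
    rw [← comp_assoc, h, comp_assoc, hμσ]
  have h2 : (R.comp σ - C a) ^ m = (R - C a) ^ m := by
    simp only [add_comp, mul_comp, C_comp, pow_comp, sub_comp, X_comp] at h1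
    exact mul_left_cancel₀ (C_ne_zero.2 hc) (add_left_cancel h1)
  obtain ⟨ξ, hξ, h3⟩ := eq_C_mul_of_pow_eq hm h2
  have h4 : (C ξ * X + C ((1 - ξ) * a)).comp R = (X.comp R).comp σ := by
    simp only [add_comp, mul_comp, C_comp, X_comp]
    have : R.comp σ = C ξ * (R - C a) + C a := by rw [← h3]; ring
    rw [this]
    simp only [C_mul, C_sub, C_1]
    ring
  obtain ⟨e, he, h5⟩ := shift R _ X σ hR hcen (by
    rw [natDegree_add_C]; exact natDegree_C_mul_X _ hξ) natDegree_X hσd h4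
  have h6 : (1 - ζ) * a = 0 := by
    have := congrArg (fun q => coeff q 0) h5
    rw [hσ] at this
    simpa using this
  have ha : a = 0 := by
    rcases mul_eq_zero.1 h6 with h7 | h7
    · exact absurd (sub_eq_zero.1 h7).symm hζ1
    · exact h7
  exact ⟨v, by rw [ha]; simp⟩

/-- normal form of `P` relative to a power semiconjugacy -/
lemma normal_form {R P : K[X]} {n : ℕ} {v c : K} (hc : c ≠ 0) {m : ℕ}
    (h : (C v + C c * X ^ m).comp R = (iter P n).comp (C v + C c * X ^ m)) :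
    ∃ P₂, Semi P P₂ ∧ R ^ m = (iter P₂ n).comp (X ^ m) := by
  have hLd : (C c * X + C v : K[X]).natDegree = 1 := by
    rw [natDegree_add_C]; exact natDegree_C_mul_X _ hc
  obtain ⟨M, hM, hLM, hML⟩ := inv_linear hLd
  set L : K[X] := C c * X + C v with hL
  have hμ : (C v + C c * X ^ m : K[X]) = L.comp (X ^ m) := by
    rw [hL]
    simp only [add_comp, mul_comp, C_comp, X_comp]
    ring
  refine ⟨(M.comp P).comp L, semi_conj hM hLM, ?_⟩
  rw [conj_iter hLM n hML, comp_assoc, ← hμ, comp_assoc, ← h, hμ, comp_assoc, ← comp_assoc, hML, X_comp,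
    pow_comp, X_comp]

/-- the non-dihedral case -/
lemma power_case {R P Q : K[X]} {n : ℕ} (hn : 3 ≤ n) {d : ℕ} (hd : 2 ≤ d) (hP : P.natDegree = d)
    (hQ : Q.natDegree = d) (hR : R ≠ 0) {m m' : ℕ} (hm : m ≠ 0) (hm' : m' ≠ 0)
    (h1 : R ^ m = (iter P n).comp (X ^ m)) (h2 : R ^ m' = (iter Q n).comp (X ^ m')) :
    ∃ f, Semi P f ∧ Semi Q f := by
  set M := Nat.lcm m m' with hM
  have hM0 : M ≠ 0 := Nat.lcm_ne_zero hm hm'
  have hs : SymP R M := symP_lcm (symP_of_semi_pow hm hR h1) (symP_of_semi_pow hm' hR h2)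
  obtain ⟨f, hf⟩ := pow_of_symP hM0 hs
  have key : ∀ (P : K[X]) (m : ℕ), P.natDegree = d → m ≠ 0 → m ∣ M → R ^ m = (iter P n).comp (X ^ m) →
      ∃ P₃, Semi P P₃ ∧ iter P₃ n = f := by
    intro P m hP hm hdvd h1
    obtain ⟨q, hq⟩ := hdvd
    have hq0 : q ≠ 0 := by
      rintro rfl
      rw [mul_zero] at hq
      exact hM0 hq
    have e1 : (iter P n) ^ q = f.comp (X ^ q) := by
      apply comp_right_cancel (G := X ^ m) (by rw [natDegree_X_pow]; omega)
      rw [pow_comp, ← h1, ← pow_mul, ← hq, hf, comp_assoc, pow_comp, X_comp, ← pow_mul, ← hq]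
    have hne : iter P n ≠ 0 := by
      intro h0
      have := natDegree_iter P n
      rw [h0, natDegree_zero, hP] at this
      have h3 : 0 < d ^ n := Nat.pow_pos (by omega)
      omega
    have hsP : SymP P q := symP_of_iter (by omega) (by omega) hq0 (symP_of_semi_pow hq0 hne e1)
    obtain ⟨P₃, hP₃⟩ := pow_of_symP hq0 hsP
    have e2 : (X ^ q).comp P = P₃.comp (X ^ q) := by rw [pow_comp, X_comp, hP₃]
    refine ⟨P₃, ⟨X ^ q, by rw [natDegree_X_pow]; omega, e2⟩, ?_⟩
    apply comp_right_cancel (G := X ^ q) (by rw [natDegree_X_pow]; omega)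
    rw [← semiconj_iter e2 n, pow_comp, X_comp, e1]
  obtain ⟨P₃, s1, i1⟩ := key P m hP hm (Nat.dvd_lcm_left m m') h1
  obtain ⟨Q₃, s2, i2⟩ := key Q m' hQ hm' (Nat.dvd_lcm_right m m') h2
  have d1 := semi_natDegree s1
  have d2 := semi_natDegree s2
  obtain ⟨g, t1, t2⟩ := quotient_of_iter_eq P₃ Q₃ n hn (by omega) (by omega) (i1.trans i2.symm)
  exact ⟨g, s1.trans t1, s2.trans t2⟩

lemma coprime_part (D : ℕ) : ∀ a : ℕ, a ≠ 0 → ∃ a₁ m J : ℕ, a = a₁ * m ∧ a₁ ∣ D ^ J ∧ Nat.Coprime m D := by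
  intro a
  induction a using Nat.strong_induction_on with
  | _ a ih =>
    intro ha
    by_cases hco : Nat.Coprime a D
    · exact ⟨1, a, 0, by simp, one_dvd _, hco⟩
    · set g := Nat.gcd a D with hg
      have hg1 : g ≠ 1 := hco
      have hg0 : 0 < g := Nat.gcd_pos_of_pos_left _ (Nat.pos_of_ne_zero ha)
      obtain ⟨b, hb⟩ : g ∣ a := Nat.gcd_dvd_left a D
      have hb0 : b ≠ 0 := by
        rintro rfl
        rw [mul_zero] at hb
        exact ha hb
      have hlt : b < a := by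
        rw [hb]
        have : 2 ≤ g := by omega
        nlinarith [Nat.pos_of_ne_zero hb0]
      obtain ⟨a₁, m, J, h1, h2, h3⟩ := ih b hlt hb0
      refine ⟨g * a₁, m, J + 1, by rw [hb, h1]; ring, ?_, h3⟩
      rw [pow_succ, mul_comm (D ^ J) D]
      exact Nat.mul_dvd_mul (Nat.gcd_dvd_right a D) h2

/-- Reduction to a semiconjugacy of degree coprime to `d`. -/
lemma reduce {R P π : K[X]} {n : ℕ} (hP : 2 ≤ P.natDegree) (hπ : 1 ≤ π.natDegree)
    (h : π.comp R = (iter P n).comp π) :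
    ∃ P₁ μ : K[X], Semi P P₁ ∧ 1 ≤ μ.natDegree ∧ Nat.Coprime μ.natDegree R.natDegree ∧
      μ.comp R = (iter P₁ n).comp μ := by
  have hRd : R.natDegree = (iter P n).natDegree := semi_natDegree ⟨π, hπ, h⟩
  set D := R.natDegree with hD
  have hD2 : 1 ≤ D := by
    rw [hRd, natDegree_iter]
    exact Nat.one_le_pow _ _ (by omega)
  obtain ⟨a₁, m, J, h1, h2, h3⟩ := coprime_part D π.natDegree (by omega)
  have ha₁ : a₁ ≠ 0 := by
    rintro rfl
    rw [zero_mul] at h1
    omega
  have hm0 : m ≠ 0 := by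
    rintro rfl
    rw [mul_zero] at h1
    omega
  set G := iter R J with hG
  have hGd : G.natDegree = D ^ J := natDegree_iter R J
  have hDJ : 1 ≤ D ^ J := Nat.one_le_pow _ _ hD2
  have hcomm : G.comp R = R.comp G := by
    rw [hG, ← iter_succ', iter_succ]
  have hF : (iter (iter P n) J).comp π = π.comp G := (semiconj_iter h J).symm
  obtain ⟨A₁, B₁, hAB, hdeg⟩ := exists_lcm _ π π G hπ (by omega) hπ hF
  have hlcm : Nat.lcm π.natDegree G.natDegree = m * D ^ J := by
    rw [h1, hGd]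
    apply Nat.dvd_antisymm
    · apply Nat.lcm_dvd
      · rw [mul_comm]; exact Nat.mul_dvd_mul_left m h2
      · exact dvd_mul_left _ _
    · apply Nat.Coprime.mul_dvd_of_dvd_of_dvd (Nat.Coprime.pow_right J h3)
      · exact (dvd_mul_left m a₁).trans (Nat.dvd_lcm_left _ _)
      · exact Nat.dvd_lcm_right _ _
  have hBdeg : B₁.natDegree = m := by
    have e := hdeg
    rw [hlcm, natDegree_comp, hGd] at e
    exact Nat.eq_of_mul_eq_mul_right hDJ e
  have hAdeg : A₁.natDegree * a₁ = D ^ J := by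
    have e : (A₁.comp π).natDegree = m * D ^ J := by rw [hAB, hdeg, hlcm]
    rw [natDegree_comp, h1] at e
    have : m * (A₁.natDegree * a₁) = m * D ^ J := by rw [← e]; ring
    exact Nat.eq_of_mul_eq_mul_left (Nat.pos_of_ne_zero hm0) this
  have hA1 : 1 ≤ A₁.natDegree := by
    rcases Nat.eq_zero_or_pos A₁.natDegree with h0 | h0
    · rw [h0, zero_mul] at hAdeg
      omega
    · exact h0
  -- the pushforward of `R`
  obtain ⟨Pt, hPt⟩ := inter_gen A₁ B₁ π G hπ (by omega) hAB hdeg _ (A₁.comp (iter P n)) (B₁.comp R) (by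
    rw [comp_assoc, ← h, ← comp_assoc, hAB, comp_assoc, comp_assoc, hcomm]) le_rfl
  have e1 : Pt.comp B₁ = B₁.comp R := by
    apply comp_right_cancel (G := G) (by omega)
    rw [comp_assoc, ← hPt]
  have e2 : Pt.comp A₁ = A₁.comp (iter P n) := by
    apply comp_right_cancel (G := π) hπ
    rw [comp_assoc, hAB, ← comp_assoc, e1, comp_assoc, comp_assoc, ← h, ← comp_assoc A₁, hAB, comp_assoc, hcomm]
  -- `iter P (n J)` factors through `A₁`
  have hsc : (iter Pt J).comp A₁ = A₁.comp (iter (iter P n) J) := (semiconj_iter e2.symm J).symm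
  have hPJ : (iter (iter P n) J).natDegree = D ^ J := by rw [natDegree_iter, ← hRd]
  obtain ⟨V, hV⟩ := right_factor _ _ A₁ (iter (iter P n) J) hA1 (by omega) hA1 hsc (by
    rw [hPJ, ← hAdeg]; exact dvd_mul_right _ _)
  have hVd : 1 ≤ V.natDegree := by
    have := congrArg natDegree hV
    rw [natDegree_comp, hPJ] at this
    rcases Nat.eq_zero_or_pos V.natDegree with h0 | h0
    · rw [h0, zero_mul] at this
      omega
    · exact h0
  have hcomm2 : (iter (iter P n) J).comp P = P.comp (iter (iter P n) J) := by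
    rw [← iter_mul, ← iter_succ', iter_succ]
  obtain ⟨P₁, hP₁⟩ := right_factor (P.comp V) V A₁ (A₁.comp P) hA1 (by
      rw [natDegree_comp]; exact Nat.mul_pos hA1 (by omega)) hVd (by
      rw [comp_assoc, ← hV, ← comp_assoc, ← hV, hcomm2]) (by
      rw [natDegree_comp]; exact dvd_mul_right _ _)
  have hsemi : Semi P P₁ := ⟨A₁, hA1, hP₁⟩
  have e3 : iter P₁ n = Pt := by
    apply comp_right_cancel (G := A₁) hA1
    rw [e2, semiconj_iter hP₁ n]
  refine ⟨P₁, B₁, hsemi, by omega, by rw [hBdeg]; exact h3, ?_⟩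
  rw [e3, e1]

/-- Main theorem. -/
theorem common_quotient {P Q R : K[X]} {d n : ℕ} (hd : 2 ≤ d) (hn : 1 ≤ n) (hP : P.natDegree = d)
    (hQ : Q.natDegree = d) (h1 : Semi R (iter P n)) (h2 : Semi R (iter Q n)) :
    ∃ f, Semi P f ∧ Semi Q f := by
  -- pass to third iterates
  obtain ⟨π, hπ, hπ2⟩ := h1
  obtain ⟨ρ, hρ, hρ2⟩ := h2
  have hπ3 := semiconj_iter hπ2 3
  have hρ3 := semiconj_iter hρ2 3
  rw [← iter_mul] at hπ3 hρ3
  set n' := n * 3 with hn'
  set R' := iter R 3 with hR'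
  obtain ⟨P₁, μ, sP, hμ1, hμ2, hμ3⟩ := reduce (n := n') (by omega) hπ hπ3
  obtain ⟨Q₁, ν, sQ, hν1, hν2, hν3⟩ := reduce (n := n') (by omega) hρ hρ3
  have dP := semi_natDegree sP
  have dQ := semi_natDegree sQ
  have hRd : R'.natDegree = (iter P₁ n').natDegree := semi_natDegree ⟨μ, hμ1, hμ3⟩
  have hRd2 : 2 ≤ R'.natDegree := by
    rw [hRd, natDegree_iter, ← dP, hP]
    calc 2 ≤ d := hd
      _ = d ^ 1 := (pow_one d).symm
      _ ≤ d ^ n' := Nat.pow_le_pow_right (by omega) (by omega)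
  suffices hs : ∃ f, Semi P₁ f ∧ Semi Q₁ f by
    obtain ⟨f, t1, t2⟩ := hs
    exact ⟨f, sP.trans t1, sQ.trans t2⟩
  by_cases hD : Dih R'
  · have hD1 : Dih P₁ := dih_of_iter (by omega) n' (by omega) (dih_down μ _ R' hμ1 (by omega) hμ2 hμ3 hD)
    have hD2 : Dih Q₁ := dih_of_iter (by omega) n' (by omega) (dih_down ν _ R' hν1 (by omega) hν2 hν3 hD)
    exact dih_quotient (by omega) (by omega) hD1 hD2
  · -- both semiconjugacies are power-like
    rcases dichotomy μ _ R' hμ1 (by omega) hμ2 hμ3 with hD1 | ⟨v, a, hμp⟩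
    · exact absurd (dih_up hμ1 hμ3 hD1) hD
    rcases dichotomy ν _ R' hν1 (by omega) hν2 hν3 with hD2 | ⟨w, b, hνp⟩
    · exact absurd (dih_up hν1 hν3 hD2) hD
    -- centre `R'`
    set D := R'.natDegree with hDdef
    have hn0 : (D : K) ≠ 0 := by exact_mod_cast (by omega : D ≠ 0)
    have hR0 : R'.coeff D ≠ 0 := by
      rw [hDdef, coeff_natDegree]
      apply leadingCoeff_ne_zero.2
      intro h0
      rw [h0, natDegree_zero] at hDdef
      omega
    set t : K := - R'.coeff (D - 1) / (D * R'.coeff D) with ht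
    have hLd : (C 1 * X + C t : K[X]).natDegree = 1 := by
      rw [natDegree_add_C]; exact natDegree_C_mul_X _ one_ne_zero
    obtain ⟨M, hM, hLM, hML⟩ := inv_linear hLd
    set L : K[X] := C 1 * X + C t with hL
    set S := (M.comp R').comp L with hS
    have dS : S.natDegree = D := (semi_natDegree (semi_conj hM hLM)).symm
    have hcen : S.coeff (S.natDegree - 1) = 0 := by
      rw [dS, hS, comp_assoc]
      obtain ⟨a, b, ha, hab⟩ := linear_form hM
      rw [hab]
      simp only [add_comp, mul_comp, C_comp, X_comp, coeff_add, coeff_C_mul]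
      rw [hL, coeff_comp_linear R' D (by omega) rfl, coeff_C, if_neg (by omega), ht]
      field_simp
      ring
    have key : ∀ (P μ : K[X]) (v a : K), 1 ≤ μ.natDegree → μ.comp R' = (iter P n').comp μ →
        μ = C v + C μ.leadingCoeff * (X - C a) ^ μ.natDegree →
        ∃ P₂, Semi P P₂ ∧ S ^ μ.natDegree = (iter P₂ n').comp (X ^ μ.natDegree) := by
      intro P μ v a hμ1 hμ3 hμp
      have hc : μ.leadingCoeff ≠ 0 := by
        apply leadingCoeff_ne_zero.2
        rintro rfl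
        simp at hμ1
      have e1 : μ.comp L = C v + C μ.leadingCoeff * (X - C (a - t)) ^ μ.natDegree := by
        conv_lhs => rw [hμp]
        simp only [add_comp, mul_comp, C_comp, pow_comp, sub_comp, X_comp]
        congr 3
        rw [hL]
        simp only [C_sub, C_1]
        ring
      have e2 : (μ.comp L).comp S = (iter P n').comp (μ.comp L) := by
        calc (μ.comp L).comp S = (μ.comp ((L.comp M).comp R')).comp L := by
              rw [hS]; simp only [comp_assoc]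
          _ = (iter P n').comp (μ.comp L) := by rw [hLM, X_comp, hμ3, comp_assoc]
      rw [e1] at e2
      obtain ⟨v', hv'⟩ := centre_power (by omega) hcen hc (by omega) e2
      rw [hv'] at e2
      exact normal_form hc e2
    obtain ⟨P₂, s1, i1⟩ := key P₁ μ v a hμ1 hμ3 hμp
    obtain ⟨Q₂, s2, i2⟩ := key Q₁ ν w b hν1 hν3 hνp
    have d1 := semi_natDegree s1
    have d2 := semi_natDegree s2
    have hS0 : S ≠ 0 := by
      intro h0
      rw [h0, natDegree_zero] at dS
      omega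
    obtain ⟨f, t1, t2⟩ := power_case (n := n') (by omega) hd (by omega) (by omega) hS0 (by omega) (by omega) i1 i2
    exact ⟨f, s1.trans t1, s2.trans t2⟩

end NH66.Intertwine
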