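import Pool.Agent.NH66.Intertwine.Surj

/-!
# Polynomials with one critical value; the dichotomy
-/

namespace NH66.Intertwine

open Polynomial

set_option linter.unusedSectionVars false

variable {K : Type*} [Field K] [CharZero K] [IsAlgClosed K]

lemma power_of_one_critical_value (μ : K[X]) (hμ : 1 ≤ μ.natDegree) (v : K)
    (h : ∀ x, μ.derivative.eval x = 0 → μ.eval x = v) :
    ∃ a, μ = C v + C μ.leadingCoeff * (X - C a) ^ μ.natDegree := by
  classical
  set g := μ - C v with hg
  have hgd : g.natDegree = μ.natDegree := natDegree_sub_C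
  have hgder : g.derivative = μ.derivative := by rw [hg]; simp
  have hg0 : g ≠ 0 := by
    intro h0
    rw [h0] at hgd
    simp at hgd
    omega
  have hd0 : g.derivative ≠ 0 := by rw [hgder]; exact derivative_ne_zero' hμ
  have hlc : g.leadingCoeff = μ.leadingCoeff := by
    rw [hg]
    apply leadingCoeff_sub_of_degree_lt
    apply lt_of_le_of_lt degree_C_le
    rw [← natDegree_pos_iff_degree_pos]
    omega
  have hc1 : Multiset.card g.roots = g.natDegree := ((IsAlgClosed.splits g).natDegree_eq_card_roots).symm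
  have hc2 : Multiset.card g.derivative.roots = g.natDegree - 1 := by
    rw [← (IsAlgClosed.splits g.derivative).natDegree_eq_card_roots, natDegree_derivative_eq']
  have hs1 : ∑ x ∈ g.roots.toFinset, g.roots.count x = Multiset.card g.roots := Multiset.toFinset_sum_count_eq _
  have hs2 : ∑ x ∈ g.roots.toFinset, g.derivative.roots.count x = Multiset.card g.derivative.roots := by
    apply Multiset.sum_count_eq_card
    intro x hx
    rw [mem_roots hd0, IsRoot.def, hgder] at hx
    rw [Multiset.mem_toFinset, mem_roots hg0, IsRoot.def, hg, eval_sub, eval_C, h x hx, sub_self]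
  have hs3 : ∑ x ∈ g.roots.toFinset, g.derivative.roots.count x + g.roots.toFinset.card =
      ∑ x ∈ g.roots.toFinset, g.roots.count x := by
    rw [Finset.card_eq_sum_ones, ← Finset.sum_add_distrib]
    apply Finset.sum_congr rfl
    intro x hx
    rw [Multiset.mem_toFinset] at hx
    have h1 : 0 < g.roots.count x := Multiset.count_pos.2 hx
    rw [mem_roots hg0] at hx
    rw [count_roots, count_roots, derivative_rootMultiplicity_of_root hx]
    rw [count_roots] at h1
    omega
  have hcard : g.roots.toFinset.card = 1 := by omega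
  obtain ⟨a, ha⟩ := Finset.card_eq_one.1 hcard
  have hrep : g.roots = Multiset.replicate g.natDegree a := by
    rw [← hc1]
    apply Multiset.eq_replicate_card.2
    intro b hb
    have : b ∈ g.roots.toFinset := Multiset.mem_toFinset.2 hb
    rw [ha, Finset.mem_singleton] at this
    exact this
  refine ⟨a, ?_⟩
  have hprod := (IsAlgClosed.splits g).eq_prod_roots
  rw [hrep, Multiset.map_replicate, Multiset.prod_replicate, hlc, hgd] at hprod
  rw [← hprod, hg]
  ring

/-- the set of critical values -/
noncomputable def critVals (μ : K[X]) : Finset K := by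
  classical exact μ.derivative.roots.toFinset.image (fun x => μ.eval x)

lemma mem_critVals {μ : K[X]} (hμ : 1 ≤ μ.natDegree) (v : K) :
    v ∈ critVals μ ↔ ∃ y, μ.derivative.eval y = 0 ∧ μ.eval y = v := by
  classical
  rw [critVals, Finset.mem_image]
  constructor
  · rintro ⟨y, hy, h⟩
    rw [Multiset.mem_toFinset, mem_roots (derivative_ne_zero' hμ)] at hy
    exact ⟨y, hy, h⟩
  · rintro ⟨y, hy, h⟩
    refine ⟨y, ?_, h⟩
    rw [Multiset.mem_toFinset, mem_roots (derivative_ne_zero' hμ)]
    exact hy

/-- Dichotomy. -/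
lemma dichotomy (μ F R : K[X]) (hμ : 1 ≤ μ.natDegree) (hR : 1 ≤ R.natDegree)
    (hco : Nat.Coprime μ.natDegree R.natDegree) (h : μ.comp R = F.comp μ) :
    Dih F ∨ ∃ v a, μ = C v + C μ.leadingCoeff * (X - C a) ^ μ.natDegree := by
  have hsh : Sh F (critVals μ) (critVals μ) := by
    intro x hx hd
    rw [mem_critVals hμ] at hx ⊢
    obtain ⟨y, hy1, hy2⟩ := hx
    obtain ⟨z, hz1, hz2⟩ := surj μ F R hμ hR hco h x y hy2.symm
    refine ⟨z, ?_, hz1⟩
    have h1 := congrArg (fun f : K[X] => f.derivative.eval z) h
    simp only [derivative_comp, eval_mul, eval_comp] at h1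
    rw [hz2, hy1, mul_zero, hz1] at h1
    rcases mul_eq_zero.1 h1.symm with h2 | h2
    · exact h2
    · exact absurd h2 hd
  rcases Nat.lt_or_ge (critVals μ).card 2 with hlt | hge
  · right
    have : ∃ v, ∀ w ∈ critVals μ, w = v := by
      rcases Finset.card_le_one_iff_subset_singleton.1 (by omega : (critVals μ).card ≤ 1) with ⟨v, hv⟩
      exact ⟨v, fun w hw => Finset.mem_singleton.1 (hv hw)⟩
    obtain ⟨v, hv⟩ := this
    obtain ⟨a, ha⟩ := power_of_one_critical_value μ hμ v (fun x hx => hv _ ((mem_critVals hμ _).2 ⟨x, hx, rfl⟩))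
    exact ⟨v, a, ha⟩
  · left
    exact ⟨critVals μ, hge, hsh⟩

/-- pushing forward a dihedral structure by a semiconjugacy of coprime degree -/
lemma dih_down (μ F R : K[X]) (hμ : 1 ≤ μ.natDegree) (hR : 1 ≤ R.natDegree)
    (hco : Nat.Coprime μ.natDegree R.natDegree) (h : μ.comp R = F.comp μ) (hD : Dih R) : Dih F := by
  classical
  obtain ⟨Y, hY1, hY2⟩ := hD
  refine ⟨critVals μ ∪ Y.image (fun y => μ.eval y), ?_, ?_⟩
  · by_contra hcon
    push Not at hcon
    have : ∃ v, ∀ w ∈ critVals μ ∪ Y.image (fun y => μ.eval y), w = v := by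
      rcases Finset.card_le_one_iff_subset_singleton.1
        (by omega : (critVals μ ∪ Y.image (fun y => μ.eval y)).card ≤ 1) with ⟨v, hv⟩
      exact ⟨v, fun w hw => Finset.mem_singleton.1 (hv hw)⟩
    obtain ⟨v, hv⟩ := this
    obtain ⟨a, ha⟩ := power_of_one_critical_value μ hμ v
      (fun x hx => hv _ (Finset.mem_union_left _ ((mem_critVals hμ _).2 ⟨x, hx, rfl⟩)))
    have hYa : Y ⊆ {a} := by
      intro y hy
      have h1 : μ.eval y = v := hv _ (Finset.mem_union_right _ (Finset.mem_image_of_mem _ hy))
      rw [ha] at h1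
      simp only [eval_add, eval_mul, eval_C, eval_pow, eval_sub, eval_X] at h1
      have h2 : μ.leadingCoeff * (y - a) ^ μ.natDegree = 0 := by linear_combination h1
      have hlc : μ.leadingCoeff ≠ 0 := by
        apply leadingCoeff_ne_zero.2
        rintro rfl
        simp at hμ
      rcases mul_eq_zero.1 h2 with h3 | h3
      · exact absurd h3 hlc
      · rw [Finset.mem_singleton]
        exact sub_eq_zero.1 (pow_eq_zero_iff (by omega) |>.1 h3)
    have := Finset.card_le_card hYa
    rw [Finset.card_singleton] at this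
    omega
  · intro x hx hd
    have key : ∀ y z, μ.eval z = x → R.eval z = y → μ.derivative.eval z ≠ 0 →
        μ.derivative.eval y ≠ 0 ∧ R.derivative.eval z ≠ 0 := by
      intro y z hz1 hz2 hz3
      have h1 := congrArg (fun f : K[X] => f.derivative.eval z) h
      simp only [derivative_comp, eval_mul, eval_comp] at h1
      rw [hz2, hz1] at h1
      have h2 : R.derivative.eval z * μ.derivative.eval y ≠ 0 := by
        rw [h1]; exact mul_ne_zero hz3 hd
      exact ⟨right_ne_zero_of_mul h2, left_ne_zero_of_mul h2⟩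
    have hcase : ∃ y, F.eval x = μ.eval y ∧ (μ.derivative.eval y = 0 ∨ y ∈ Y) := by
      rcases Finset.mem_union.1 hx with hx | hx
      · obtain ⟨y, hy1, hy2⟩ := (mem_critVals hμ _).1 hx
        exact ⟨y, hy2.symm, Or.inl hy1⟩
      · obtain ⟨y, hy1, hy2⟩ := Finset.mem_image.1 hx
        exact ⟨y, hy2.symm, Or.inr hy1⟩
    obtain ⟨y, hy1, hy2⟩ := hcase
    obtain ⟨z, hz1, hz2⟩ := surj μ F R hμ hR hco h x y hy1
    by_cases hz3 : μ.derivative.eval z = 0
    · exact Finset.mem_union_left _ ((mem_critVals hμ _).2 ⟨z, hz3, hz1⟩)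
    · obtain ⟨h4, h5⟩ := key y z hz1 hz2 hz3
      rcases hy2 with hy2 | hy2
      · exact absurd hy2 h4
      · apply Finset.mem_union_right
        rw [Finset.mem_image]
        exact ⟨z, hY2 z (by rw [hz2]; exact hy2) h5, hz1⟩

end NH66.Intertwine
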