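import Pool.Agent.NH66.Intertwine.Dihedral

/-!
# Rotational symmetries and the non-dihedral case
-/

namespace NH66.Intertwine

open Polynomial

set_option linter.unusedSectionVars false

variable {K : Type*} [Field K] [CharZero K] [IsAlgClosed K]

/-- right factors of the same degree differ by a linear polynomial -/
lemma lin_unique (A B G H : K[X]) (hG : 1 ≤ G.natDegree) (hd : G.natDegree = H.natDegree)
    (hB : 1 ≤ B.natDegree) (hF : A.comp G = B.comp H) :
    ∃ l : K[X], l.natDegree = 1 ∧ H = l.comp G := by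
  obtain ⟨p, hp⟩ := right_factor A B G H hG (by omega) hB hF (by rw [hd])
  refine ⟨p, ?_, hp⟩
  have := congrArg natDegree hp
  rw [natDegree_comp, ← hd] at this
  have h2 : 1 * G.natDegree = p.natDegree * G.natDegree := by rw [one_mul]; exact this
  exact (Nat.eq_of_mul_eq_mul_right hG h2).symm

lemma linear_form {l : K[X]} (h : l.natDegree = 1) : ∃ a b : K, a ≠ 0 ∧ l = C a * X + C b := by
  refine ⟨l.coeff 1, l.coeff 0, ?_, eq_X_add_C_of_natDegree_le_one h.le⟩
  intro h0
  have hl : l.leadingCoeff = 0 := by rw [leadingCoeff, h, h0]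
  rw [leadingCoeff_eq_zero] at hl
  rw [hl] at h
  simp at h

lemma coeff_comp_linear (P : K[X]) (d : ℕ) (hd : 1 ≤ d) (hP : P.natDegree = d) (e f : K) :
    (P.comp (C e * X + C f)).coeff (d - 1) = (d * P.coeff d * f + P.coeff (d - 1)) * e ^ (d - 1) := by
  have h1 : P.comp (C e * X + C f) = (P.comp (X + C f)).comp (C e * X) := by
    rw [comp_assoc]
    simp
  rw [h1, comp_C_mul_X_coeff, ← taylor_apply, taylor_coeff]
  congr 1
  have h2 : (hasseDeriv (d - 1) P).natDegree ≤ 1 := by
    refine (natDegree_hasseDeriv_le P (d - 1)).trans ?_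
    omega
  rw [eq_X_add_C_of_natDegree_le_one h2]
  simp only [eval_add, eval_mul, eval_C, eval_X, hasseDeriv_coeff]
  have e1 : 1 + (d - 1) = d := by omega
  have e2 : (d.choose (d - 1) : K) = d := by
    have : d.choose (d - 1) = d := by
      rw [Nat.choose_symm_of_eq_add (by omega : d = (d - 1) + 1), Nat.choose_one_right]
    rw [this]
  rw [e1, e2, Nat.zero_add, Nat.choose_self]
  simp

/-- the shift lemma: if `P` is centred at `0` and `A ∘ P = B ∘ P ∘ l` with `A`, `B`, `l` linear,
then `l` fixes `0`. -/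
lemma shift (P A B l : K[X]) (hP : 2 ≤ P.natDegree) (hc : P.coeff (P.natDegree - 1) = 0)
    (hA : A.natDegree = 1) (hB : B.natDegree = 1) (hl : l.natDegree = 1)
    (h : A.comp P = (B.comp P).comp l) : ∃ e, e ≠ 0 ∧ l = C e * X := by
  obtain ⟨a, a', ha, rfl⟩ := linear_form hA
  obtain ⟨b, b', hb, rfl⟩ := linear_form hB
  obtain ⟨e, f, he, rfl⟩ := linear_form hl
  refine ⟨e, he, ?_⟩
  have h1 := congrArg (fun q => coeff q (P.natDegree - 1)) h
  simp only [add_comp, mul_comp, C_comp, X_comp, coeff_add, coeff_C_mul] at h1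
  rw [coeff_comp_linear P P.natDegree (by omega) rfl, hc, coeff_C, coeff_C, if_neg (by omega),
    if_neg (by omega)] at h1
  have hP0 : P.coeff P.natDegree ≠ 0 := by
    rw [coeff_natDegree]
    apply leadingCoeff_ne_zero.2
    rintro rfl
    simp at hP
  have hn0 : (P.natDegree : K) ≠ 0 := by exact_mod_cast (by omega : P.natDegree ≠ 0)
  have h2 : (b * (P.natDegree * P.coeff P.natDegree) * e ^ (P.natDegree - 1)) * f = 0 := by
    linear_combination -h1
  rcases mul_eq_zero.1 h2 with h3 | h3
  · exfalso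
    exact (mul_ne_zero (mul_ne_zero hb (mul_ne_zero hn0 hP0)) (pow_ne_zero _ he)) h3
  · rw [h3]; simp

lemma rot_leading {P : K[X]} (hP : P ≠ 0) {e c : K} (h : P.comp (C e * X) = C c * P) :
    c = e ^ P.natDegree := by
  have h1 := congrArg (fun q => coeff q P.natDegree) h
  simp only [comp_C_mul_X_coeff, coeff_C_mul] at h1
  have hP0 : P.coeff P.natDegree ≠ 0 := by
    rw [coeff_natDegree]
    exact leadingCoeff_ne_zero.2 hP
  have h2 : P.coeff P.natDegree * c = P.coeff P.natDegree * e ^ P.natDegree := by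
    linear_combination -h1
  exact mul_left_cancel₀ hP0 h2

/-- Lemma U -/
lemma lemmaU (P Q L : K[X]) (n : ℕ) (hn : 3 ≤ n) (hP : 2 ≤ P.natDegree) (hd : Q.natDegree = P.natDegree)
    (hc : P.coeff (P.natDegree - 1) = 0) (h : iter Q n = L.comp (iter P n)) :
    ∃ e, e ≠ 0 ∧ Q = C e * P ∧ P.comp (C e * X) = C (e ^ P.natDegree) * P := by
  have hex : ∀ i, i ≤ n → ∃ l : K[X], l.natDegree = 1 ∧ iter Q i = l.comp (iter P i) := by
    intro i hi
    apply lin_unique (L.comp (iter P (n - i))) (iter Q (n - i)) (iter P i) (iter Q i)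
    · rw [natDegree_iter]; exact Nat.one_le_pow _ _ (by omega)
    · rw [natDegree_iter, natDegree_iter, hd]
    · rw [natDegree_iter]; exact Nat.one_le_pow _ _ (by omega)
    · rw [comp_assoc, ← iter_add, ← iter_add, Nat.sub_add_cancel hi, h]
  obtain ⟨l1, d1, h1⟩ := hex 1 (by omega)
  obtain ⟨l2, d2, h2⟩ := hex 2 (by omega)
  obtain ⟨l3, d3, h3⟩ := hex 3 (by omega)
  rw [iter_one, iter_one] at h1
  have a1 : l2.comp P = (l1.comp P).comp l1 := by
    apply comp_right_cancel (G := P) (by omega)
    have : iter P 2 = P.comp P := by rw [iter_succ, iter_one]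
    rw [comp_assoc, ← this, ← h2, comp_assoc, ← h1, iter_succ, iter_one]
  have a2 : l3.comp P = (l1.comp P).comp l2 := by
    apply comp_right_cancel (G := iter P 2) (by rw [natDegree_iter]; exact Nat.one_le_pow _ _ (by omega))
    have : iter P 3 = P.comp (iter P 2) := by rw [iter_succ]
    rw [comp_assoc, ← this, ← h3, comp_assoc, ← h2, ← h1, iter_succ]
  obtain ⟨e, he, rfl⟩ := shift P l2 l1 l1 hP hc d2 d1 d1 a1
  obtain ⟨e2, he2, rfl⟩ := shift P l3 (C e * X) l2 hP hc d3 d1 d2 a2
  refine ⟨e, he, by simpa using h1, ?_⟩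
  simp only [mul_comp, C_comp, X_comp] at a1
  have h4 : P.comp (C e * X) = C (e2 / e) * P := by
    have h5 : C e * P.comp (C e * X) = C e * (C (e2 / e) * P) := by
      rw [← a1, ← mul_assoc, ← C_mul, mul_div_cancel₀ _ he]
    exact mul_left_cancel₀ (C_ne_zero.2 he) h5
  have h6 := rot_leading (by rintro rfl; simp at hP) h4
  rw [h4, h6]

lemma inv_linear {L : K[X]} (h : L.natDegree = 1) :
    ∃ M : K[X], M.natDegree = 1 ∧ L.comp M = X ∧ M.comp L = X := by
  obtain ⟨a, b, ha, rfl⟩ := linear_form h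
  refine ⟨C a⁻¹ * X - C (a⁻¹ * b), ?_, ?_, ?_⟩
  · rw [natDegree_sub_C]
    exact natDegree_C_mul_X _ (inv_ne_zero ha)
  · simp only [add_comp, mul_comp, C_comp, X_comp]
    rw [mul_sub, ← mul_assoc, ← C_mul, ← C_mul, mul_inv_cancel₀ ha, ← mul_assoc, mul_inv_cancel₀ ha]
    simp
  · simp only [sub_comp, mul_comp, C_comp, X_comp]
    rw [mul_add, ← mul_assoc, ← C_mul, ← C_mul, inv_mul_cancel₀ ha]
    simp

lemma conj_iter {P L M : K[X]} (h1 : L.comp M = X) (n : ℕ) (h2 : M.comp L = X) :
    iter ((M.comp P).comp L) n = (M.comp (iter P n)).comp L := by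
  induction n with
  | zero => rw [iter_zero, iter_zero, comp_X, h2]
  | succ n ih =>
    rw [iter_succ, ih, iter_succ]
    calc ((M.comp P).comp L).comp ((M.comp (iter P n)).comp L)
        = (M.comp P).comp ((L.comp M).comp ((iter P n).comp L)) := by simp only [comp_assoc]
      _ = (M.comp (P.comp (iter P n))).comp L := by rw [h1, X_comp]; simp only [comp_assoc]

lemma semi_conj {P L M : K[X]} (hM : M.natDegree = 1) (h1 : L.comp M = X) :
    Semi P ((M.comp P).comp L) :=
  ⟨M, by omega, by rw [comp_assoc, h1, comp_X]⟩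

lemma rot_pow {P : K[X]} {m : ℕ} (hm : m ≠ 0) {e : K} (he : IsPrimitiveRoot e m)
    (h : P.comp (C e * X) = C (e ^ P.natDegree) * P) : ∃ f : K[X], P ^ m = f.comp (X ^ m) := by
  apply exists_comp_X_pow _ _ hm
  intro k hk
  have h1 : (P ^ m).comp (C e * X) = P ^ m := by
    rw [pow_comp, h, mul_pow, ← C_pow, ← pow_mul, mul_comm P.natDegree m, pow_mul, he.pow_eq_one, one_pow,
      C_1, one_mul]
  have h2 := congrArg (fun q => coeff q k) h1
  simp only [comp_C_mul_X_coeff] at h2
  have h3 : e ^ k = 1 := by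
    have : (P ^ m).coeff k * e ^ k = (P ^ m).coeff k * 1 := by rw [h2, mul_one]
    exact mul_left_cancel₀ hk this
  exact (he.pow_eq_one_iff_dvd k).1 h3

/-- Step 3: equal iterates. -/
lemma quotient_of_iter_eq (P Q : K[X]) (n : ℕ) (hn : 3 ≤ n) (hP : 2 ≤ P.natDegree)
    (hd : Q.natDegree = P.natDegree) (h : iter P n = iter Q n) : ∃ f, Semi P f ∧ Semi Q f := by
  set d := P.natDegree with hdd
  have hn0 : (d : K) ≠ 0 := by exact_mod_cast (by omega : d ≠ 0)
  have hP0 : P.coeff d ≠ 0 := by
    rw [hdd, coeff_natDegree]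
    apply leadingCoeff_ne_zero.2
    rintro rfl
    simp at hdd
    omega
  set c : K := - P.coeff (d - 1) / (d * P.coeff d) with hc
  have hLd : (C 1 * X + C c : K[X]).natDegree = 1 := by
    rw [natDegree_add_C]; exact natDegree_C_mul_X _ one_ne_zero
  obtain ⟨M, hM, hLM, hML⟩ := inv_linear hLd
  set L : K[X] := C 1 * X + C c with hL
  have sP := semi_conj (P := P) hM hLM
  have sQ := semi_conj (P := Q) hM hLM
  set P' := (M.comp P).comp L with hP'
  set Q' := (M.comp Q).comp L with hQ'
  have dP' := semi_natDegree sP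
  have dQ' := semi_natDegree sQ
  have hcen : P'.coeff (P'.natDegree - 1) = 0 := by
    rw [← dP', ← hdd, hP', comp_assoc]
    obtain ⟨a, b, ha, hab⟩ := linear_form hM
    rw [hab]
    simp only [add_comp, mul_comp, C_comp, X_comp, coeff_add, coeff_C_mul]
    rw [hL, coeff_comp_linear P d (by omega) rfl, coeff_C, if_neg (by omega), hc]
    field_simp
    ring
  have hit : iter Q' n = X.comp (iter P' n) := by
    rw [X_comp, hQ', hP', conj_iter hLM n hML, conj_iter hLM n hML, h]
  obtain ⟨e, he, hQe, hrot⟩ := lemmaU P' Q' X n hn (by omega) (by omega) hcen hit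
  have hP'0 : P' ≠ 0 := by
    intro h0
    rw [h0] at dP'
    simp at dP'
    omega
  by_cases hord : ∃ m : ℕ, m ≠ 0 ∧ e ^ m = 1
  · obtain ⟨m0, hm0, hem0⟩ := hord
    have hfin : IsOfFinOrder e := isOfFinOrder_iff_pow_eq_one.2 ⟨m0, Nat.pos_of_ne_zero hm0, hem0⟩
    set m := orderOf e with hm
    have hmpos : 0 < m := hfin.orderOf_pos
    have hprim : IsPrimitiveRoot e m := IsPrimitiveRoot.orderOf e
    obtain ⟨f, hf⟩ := rot_pow (by omega) hprim hrot
    have hXm : 0 < ((X : K[X]) ^ m).natDegree := by rw [natDegree_X_pow]; omega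
    refine ⟨f, sP.trans ⟨X ^ m, hXm, ?_⟩, sQ.trans ⟨X ^ m, hXm, ?_⟩⟩
    · rw [pow_comp, X_comp, hf]
    · rw [pow_comp, X_comp, hQe, mul_pow, ← C_pow, hprim.pow_eq_one, C_1, one_mul, hf]
  · push Not at hord
    -- `P'` is a monomial
    have hmono : P' = C (P'.coeff P'.natDegree) * X ^ P'.natDegree := by
      ext k
      rw [coeff_C_mul_X_pow]
      split_ifs with hk
      · rw [hk]
      · by_contra hne
        have h2 := congrArg (fun q => coeff q k) hrot
        simp only [comp_C_mul_X_coeff, coeff_C_mul] at h2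
        have h3 : e ^ k = e ^ P'.natDegree := by
          have : P'.coeff k * e ^ k = P'.coeff k * e ^ P'.natDegree := by rw [h2, mul_comm]
          exact mul_left_cancel₀ hne this
        rcases Nat.lt_or_ge k P'.natDegree with hlt | hge
        · apply hord (P'.natDegree - k) (by omega)
          have : e ^ k * e ^ (P'.natDegree - k) = e ^ k * 1 := by
            rw [← pow_add, mul_one, h3]
            congr 1
            omega
          exact mul_left_cancel₀ (pow_ne_zero _ he) this
        · apply hord (k - P'.natDegree) (by omega)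
          have : e ^ P'.natDegree * e ^ (k - P'.natDegree) = e ^ P'.natDegree * 1 := by
            rw [← pow_add, mul_one, ← h3]
            congr 1
            omega
          exact mul_left_cancel₀ (pow_ne_zero _ he) this
    obtain ⟨t, ht⟩ := IsAlgClosed.exists_pow_nat_eq e⁻¹ (by omega : 0 < P'.natDegree - 1)
    have ht0 : t ≠ 0 := by
      rintro rfl
      rw [zero_pow (by omega)] at ht
      exact (inv_ne_zero he) ht.symm
    have hs : Semi P' Q' := by
      refine ⟨C t * X, by rw [natDegree_C_mul_X _ ht0]; omega, ?_⟩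
      rw [hQe, hmono]
      simp only [mul_comp, C_comp, X_comp, pow_comp]
      have e1 : t = e * t ^ P'.natDegree := by
        have : t ^ P'.natDegree = t ^ (P'.natDegree - 1) * t := by
          rw [← pow_succ]
          congr 1
          omega
        rw [this, ht, ← mul_assoc, mul_inv_cancel₀ he, one_mul]
      have e2 : (C t : K[X]) = C e * C t ^ P'.natDegree := by
        rw [← C_pow, ← C_mul, ← e1]
      rw [mul_pow]
      linear_combination (C (P'.coeff P'.natDegree) * X ^ P'.natDegree) * e2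
    exact ⟨Q', sP.trans hs, sQ⟩

end NH66.Intertwine
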