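import Pool.Agent.NH66.Intertwine.Factor

/-!
# Simple preimages and dihedral polynomials
-/

namespace NH66.Intertwine

open Polynomial

set_option linter.unusedSectionVars false

variable {K : Type*} [Field K] [CharZero K] [IsAlgClosed K]

/-- `S` contains all simple preimages of `Z` under `F`. -/
def Sh (F : K[X]) (Z S : Finset K) : Prop :=
  ∀ x, F.eval x ∈ Z → F.derivative.eval x ≠ 0 → x ∈ S

/-- dihedral polynomials -/
def Dih (F : K[X]) : Prop := ∃ U : Finset K, 2 ≤ U.card ∧ Sh F U U

/-- the `n`-th iterate of `P` under composition -/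
noncomputable def iter (P : K[X]) (n : ℕ) : K[X] := (P.comp)^[n] X

lemma iter_zero (P : K[X]) : iter P 0 = X := rfl

lemma iter_succ (P : K[X]) (n : ℕ) : iter P (n + 1) = P.comp (iter P n) := by
  rw [iter, Function.iterate_succ_apply']; rfl

lemma iter_one (P : K[X]) : iter P 1 = P := by
  rw [iter_succ, iter_zero, comp_X]

lemma iter_add (P : K[X]) (m n : ℕ) : iter P (m + n) = (iter P m).comp (iter P n) := by
  induction m with
  | zero => rw [Nat.zero_add, iter_zero, X_comp]
  | succ m ih => rw [show m + 1 + n = (m + n) + 1 by ring, iter_succ, ih, iter_succ, comp_assoc]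

lemma iter_succ' (P : K[X]) (n : ℕ) : iter P (n + 1) = (iter P n).comp P := by
  rw [iter_add, iter_one]

lemma iter_mul (P : K[X]) (m n : ℕ) : iter P (m * n) = iter (iter P m) n := by
  induction n with
  | zero => simp [iter_zero]
  | succ n ih => rw [Nat.mul_succ, iter_add, ih, iter_succ']

lemma natDegree_iter (P : K[X]) (n : ℕ) : (iter P n).natDegree = P.natDegree ^ n := by
  induction n with
  | zero => simp [iter_zero]
  | succ n ih => rw [iter_succ, natDegree_comp, ih, pow_succ, mul_comm]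

/-- iterating a semiconjugacy -/
lemma semiconj_iter {π A B : K[X]} (h : π.comp A = B.comp π) (n : ℕ) :
    π.comp (iter A n) = (iter B n).comp π := by
  induction n with
  | zero => simp [iter_zero]
  | succ n ih => rw [iter_succ', ← comp_assoc, ih, comp_assoc, h, ← comp_assoc, ← iter_succ']

lemma natDegree_derivative_eq' (F : K[X]) : F.derivative.natDegree = F.natDegree - 1 := by
  rcases Nat.eq_zero_or_pos F.natDegree with h | h
  · rw [eq_C_of_natDegree_eq_zero h]
    simp
  · apply le_antisymm (natDegree_derivative_le F)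
    apply le_natDegree_of_ne_zero
    rw [coeff_derivative]
    have h1 : F.natDegree - 1 + 1 = F.natDegree := by omega
    rw [h1]
    apply mul_ne_zero
    · rw [coeff_natDegree]
      apply leadingCoeff_ne_zero.2
      rintro rfl
      simp at h
    · exact Nat.cast_add_one_ne_zero _

lemma derivative_ne_zero' {F : K[X]} (h : 1 ≤ F.natDegree) : F.derivative ≠ 0 := by
  intro h0
  rw [eq_C_of_derivative_eq_zero h0] at h
  simp at h

lemma isCoprime_sub_C (F : K[X]) {v w : K} (h : v ≠ w) : IsCoprime (F - C v) (F - C w) := by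
  have h1 : IsCoprime (X - C v : K[X]) (X - C w) := isCoprime_X_sub_C_of_isUnit_sub (sub_ne_zero.2 h).isUnit
  have h2 := h1.map (compRingHom F)
  simpa [coe_compRingHom_apply] using h2

lemma sharp_dvd (F : K[X]) (hF : 1 ≤ F.natDegree) (Z S : Finset K) (h : Sh F Z S) :
    (∏ v ∈ Z, (F - C v)) ∣ F.derivative ^ 2 * ∏ x ∈ S, (X - C x) := by
  apply Finset.prod_dvd_of_coprime
  · intro v _ w _ hvw
    exact isCoprime_sub_C F hvw
  · intro v hv
    have hne : F - C v ≠ 0 := by
      intro h0
      have : F = C v := sub_eq_zero.1 h0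
      rw [this] at hF
      simp at hF
    have h1 := (Polynomial.isRoot_of_isRoot_iff_dvd_derivative_mul (f := F - C v)
      (g := F.derivative * ∏ x ∈ S, (X - C x)) hne).1 (by
        intro x hx
        rw [IsRoot.def, eval_sub, eval_C, sub_eq_zero] at hx
        rw [IsRoot.def, eval_mul]
        by_cases hd : F.derivative.eval x = 0
        · rw [hd, zero_mul]
        · have hxS : x ∈ S := h x (by rw [hx]; exact hv) hd
          rw [eval_prod, Finset.prod_eq_zero hxS, mul_zero]
          simp)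
    have e : derivative (F - C v) * (F.derivative * ∏ x ∈ S, (X - C x)) =
        F.derivative ^ 2 * ∏ x ∈ S, (X - C x) := by
      rw [derivative_sub, derivative_C, sub_zero]
      ring
    rwa [e] at h1

lemma prod_sub_natDegree (F : K[X]) (hF : 1 ≤ F.natDegree) (Z : Finset K) :
    (∏ v ∈ Z, (F - C v)).natDegree = Z.card * F.natDegree := by
  rw [natDegree_prod]
  · rw [Finset.sum_congr rfl (g := fun _ => F.natDegree)]
    · simp
    · intro v _
      exact natDegree_sub_C
  · intro v _ h0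
    have : F = C v := sub_eq_zero.1 h0
    rw [this] at hF
    simp at hF

lemma prod_X_natDegree (S : Finset K) : (∏ x ∈ S, (X - C x)).natDegree = S.card := by
  rw [natDegree_prod_of_monic _ _ (fun x _ => monic_X_sub_C x)]
  simp

lemma rhs_ne_zero (F : K[X]) (hF : 1 ≤ F.natDegree) (S : Finset K) :
    F.derivative ^ 2 * ∏ x ∈ S, (X - C x) ≠ 0 := by
  apply mul_ne_zero (pow_ne_zero _ (derivative_ne_zero' hF))
  exact Finset.prod_ne_zero_iff.2 (fun x _ => X_sub_C_ne_zero x)

lemma rhs_natDegree (F : K[X]) (hF : 1 ≤ F.natDegree) (S : Finset K) :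
    (F.derivative ^ 2 * ∏ x ∈ S, (X - C x)).natDegree = 2 * (F.natDegree - 1) + S.card := by
  rw [natDegree_mul (pow_ne_zero _ (derivative_ne_zero' hF))
    (Finset.prod_ne_zero_iff.2 (fun x _ => X_sub_C_ne_zero x)), natDegree_pow, prod_X_natDegree,
    natDegree_derivative_eq']

lemma sharp_card (F : K[X]) (hF : 1 ≤ F.natDegree) (Z S : Finset K) (h : Sh F Z S) :
    Z.card * F.natDegree + 2 ≤ S.card + 2 * F.natDegree := by
  have h1 := natDegree_le_of_dvd (sharp_dvd F hF Z S h) (rhs_ne_zero F hF S)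
  rw [prod_sub_natDegree F hF, rhs_natDegree F hF] at h1
  omega

lemma inv_card (F : K[X]) (hF : 2 ≤ F.natDegree) (U : Finset K) (h : Sh F U U) : U.card ≤ 2 := by
  have h1 := sharp_card F (by omega) U U h
  by_contra hcon
  push Not at hcon
  obtain ⟨a, ha⟩ := Nat.exists_eq_add_of_le hcon
  obtain ⟨b, hb⟩ := Nat.exists_eq_add_of_le hF
  rw [ha, hb] at h1
  nlinarith

lemma sh_comp {F G : K[X]} {Z S T : Finset K} (h1 : Sh F Z S) (h2 : Sh G S T) : Sh (F.comp G) Z T := by
  intro x hx hd
  rw [eval_comp] at hx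
  rw [derivative_comp, eval_mul, eval_comp] at hd
  exact h2 x (h1 _ hx (right_ne_zero_of_mul hd)) (left_ne_zero_of_mul hd)

lemma sh_iter {F : K[X]} {U : Finset K} (h : Sh F U U) (n : ℕ) : Sh (iter F n) U U := by
  induction n with
  | zero =>
    intro x hx _
    rwa [iter_zero, eval_X] at hx
  | succ n ih =>
    rw [iter_succ]
    exact sh_comp h ih

/-- the finset of simple preimages -/
lemma exists_sh (F : K[X]) (hF : 1 ≤ F.natDegree) (Z : Finset K) :
    ∃ S : Finset K, ∀ x, x ∈ S ↔ (F.eval x ∈ Z ∧ F.derivative.eval x ≠ 0) := by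
  classical
  refine ⟨(∏ v ∈ Z, (F - C v)).roots.toFinset.filter (fun x => F.derivative.eval x ≠ 0), ?_⟩
  intro x
  have hne : (∏ v ∈ Z, (F - C v)) ≠ 0 := by
    rw [Finset.prod_ne_zero_iff]
    intro v _ h0
    have : F = C v := sub_eq_zero.1 h0
    rw [this] at hF
    simp at hF
  rw [Finset.mem_filter, Multiset.mem_toFinset, mem_roots hne, IsRoot.def, eval_prod,
    Finset.prod_eq_zero_iff]
  constructor
  · rintro ⟨⟨v, hv, h1⟩, h2⟩
    refine ⟨?_, h2⟩
    rw [eval_sub, eval_C, sub_eq_zero] at h1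
    rwa [h1]
  · rintro ⟨h1, h2⟩
    exact ⟨⟨_, h1, by simp⟩, h2⟩

lemma dih_iter {F : K[X]} (h : Dih F) (n : ℕ) : Dih (iter F n) := by
  obtain ⟨U, h1, h2⟩ := h
  exact ⟨U, h1, sh_iter h2 n⟩

lemma dih_of_iter {P : K[X]} (hP : 1 ≤ P.natDegree) (n : ℕ) (hn : 1 ≤ n) (h : Dih (iter P n)) : Dih P := by
  classical
  obtain ⟨Z, h1, h2⟩ := h
  have hd : ∀ i, 1 ≤ (iter P i).natDegree := by
    intro i
    rw [natDegree_iter]
    exact Nat.one_le_pow _ _ hP
  choose S hS using fun i => exists_sh (iter P i) (hd i) Z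
  have hZ0 : ∀ x, x ∈ S 0 ↔ x ∈ Z := by
    intro x
    rw [hS, iter_zero]
    simp
  refine ⟨(Finset.range n).biUnion S, ?_, ?_⟩
  · refine h1.trans (Finset.card_le_card ?_)
    intro x hx
    rw [Finset.mem_biUnion]
    exact ⟨0, Finset.mem_range.2 (by omega), (hZ0 x).2 hx⟩
  · intro x hx hdx
    rw [Finset.mem_biUnion] at hx ⊢
    obtain ⟨i, hi, hxi⟩ := hx
    rw [Finset.mem_range] at hi
    rw [hS] at hxi
    have h3 : (iter P (i + 1)).eval x ∈ Z ∧ (iter P (i + 1)).derivative.eval x ≠ 0 := by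
      rw [iter_succ', eval_comp, derivative_comp, eval_mul, eval_comp]
      exact ⟨hxi.1, mul_ne_zero hdx hxi.2⟩
    rcases Nat.lt_or_ge (i + 1) n with hlt | hge
    · exact ⟨i + 1, Finset.mem_range.2 hlt, (hS _ _).2 h3⟩
    · have : i + 1 = n := by omega
      rw [this] at h3
      exact ⟨0, Finset.mem_range.2 (by omega), (hZ0 x).2 (h2 x h3.1 h3.2)⟩

/-- pulling back a dihedral structure -/
lemma dih_up {π A B : K[X]} (hπ : 1 ≤ π.natDegree) (h : π.comp A = B.comp π) (hB : Dih B) : Dih A := by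
  obtain ⟨Z, h1, h2⟩ := hB
  obtain ⟨Y, hY⟩ := exists_sh π hπ Z
  refine ⟨Y, ?_, ?_⟩
  · have := sharp_card π hπ Z Y (fun x hx hd => (hY x).2 ⟨hx, hd⟩)
    nlinarith
  · intro x hx hd
    rw [hY] at hx
    have e1 : (π.comp A).eval x ∈ Z := by rw [eval_comp]; exact hx.1
    have e2 : (π.comp A).derivative.eval x ≠ 0 := by
      rw [derivative_comp, eval_mul, eval_comp]
      exact mul_ne_zero hd hx.2
    rw [h] at e1 e2
    rw [eval_comp] at e1
    rw [derivative_comp, eval_mul, eval_comp] at e2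
    exact (hY x).2 ⟨h2 _ e1 (right_ne_zero_of_mul e2), left_ne_zero_of_mul e2⟩

end NH66.Intertwine
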