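import Pool.Agent.NH66.Intertwine.Sharp

/-!
# Surjectivity lemma for semiconjugacies of coprime degree
-/

namespace NH66.Intertwine

open Polynomial

set_option linter.unusedSectionVars false

variable {K : Type*} [Field K] [CharZero K] [IsAlgClosed K]

/-- the substitution `x ↦ μ`, `y ↦ R`. -/
noncomputable def sub2 (μ R : K[X]) : K[X][X] →+* K[X] := eval₂RingHom (compRingHom μ) R

lemma sub2_inj (μ R : K[X]) (hμ : 1 ≤ μ.natDegree) (hR : 1 ≤ R.natDegree)
    (hco : Nat.Coprime μ.natDegree R.natDegree) (r : K[X][X]) (hr : r.natDegree < μ.natDegree)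
    (h0 : sub2 μ R r = 0) : r = 0 := by
  by_contra hne
  rw [sub2, coe_eval₂RingHom, eval₂_eq_sum_range] at h0
  have hR0 : R ≠ 0 := by
    rintro rfl
    simp at hR
  have hdeg : ∀ i, r.coeff i ≠ 0 → (compRingHom μ (r.coeff i) * R ^ i) ≠ 0 ∧
      (compRingHom μ (r.coeff i) * R ^ i).natDegree = (r.coeff i).natDegree * μ.natDegree + i * R.natDegree := by
    intro i hi
    have h1 : compRingHom μ (r.coeff i) ≠ 0 := by
      rw [coe_compRingHom_apply]
      intro h
      rw [comp_eq_zero_iff] at h
      rcases h with h | h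
      · exact hi h
      · rw [h.2] at hμ
        simp at hμ
    refine ⟨mul_ne_zero h1 (pow_ne_zero _ hR0), ?_⟩
    rw [natDegree_mul h1 (pow_ne_zero _ hR0), natDegree_pow, coe_compRingHom_apply, natDegree_comp]
  have hsum := degree_sum_eq_of_disjoint (fun i => compRingHom μ (r.coeff i) * R ^ i)
    (Finset.range (r.natDegree + 1)) (by
      intro i hi j hj hij
      obtain ⟨hi1, hi2⟩ := hi
      obtain ⟨hj1, hj2⟩ := hj
      have hci : r.coeff i ≠ 0 := by
        intro h
        apply hi2
        simp [h]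
      have hcj : r.coeff j ≠ 0 := by
        intro h
        apply hj2
        simp [h]
      obtain ⟨hi3, hi4⟩ := hdeg i hci
      obtain ⟨hj3, hj4⟩ := hdeg j hcj
      simp only [Function.onFun, Function.comp]
      rw [degree_eq_natDegree hi3, degree_eq_natDegree hj3, hi4, hj4]
      intro h
      have h' : (r.coeff i).natDegree * μ.natDegree + i * R.natDegree =
        (r.coeff j).natDegree * μ.natDegree + j * R.natDegree := by exact_mod_cast h
      have hmod : i * R.natDegree ≡ j * R.natDegree [MOD μ.natDegree] := by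
        have : ((r.coeff i).natDegree * μ.natDegree + i * R.natDegree) ≡
          ((r.coeff j).natDegree * μ.natDegree + j * R.natDegree) [MOD μ.natDegree] := by rw [h']
        unfold Nat.ModEq at this ⊢
        simpa [Nat.add_mod, Nat.mul_mod] using this
      have hmod2 : i ≡ j [MOD μ.natDegree] := Nat.ModEq.cancel_right_of_coprime hco hmod
      have hi5 : i < μ.natDegree := by
        have := Finset.mem_range.1 hi1
        omega
      have hj5 : j < μ.natDegree := by
        have := Finset.mem_range.1 hj1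
        omega
      exact hij (hmod2.eq_of_lt_of_lt hi5 hj5))
  rw [h0, degree_zero] at hsum
  have htop := (Finset.sup_eq_bot_iff _ _).1 hsum.symm r.natDegree (Finset.mem_range.2 (by omega))
  have hlc : r.coeff r.natDegree ≠ 0 := by
    rw [coeff_natDegree]
    exact leadingCoeff_ne_zero.2 hne
  rw [degree_eq_bot] at htop
  exact (hdeg _ hlc).1 htop

/-- the polynomial `(μ(y) - F(x))/lc` as an element of `K[x][y]` -/
noncomputable def rel (μ F : K[X]) : K[X][X] :=
  C (C μ.leadingCoeff⁻¹) * (μ.map C - C F)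

lemma rel_monic (μ F : K[X]) (hμ : 1 ≤ μ.natDegree) : (rel μ F).Monic ∧ (rel μ F).natDegree = μ.natDegree := by
  have hμ0 : μ ≠ 0 := by
    rintro rfl
    simp at hμ
  have h1 : (μ.map (C : K →+* K[X])).natDegree = μ.natDegree := natDegree_map_eq_of_injective C_injective μ
  have h2 : (μ.map (C : K →+* K[X])).leadingCoeff = C μ.leadingCoeff :=
    leadingCoeff_map_of_injective C_injective _
  have h3 : (C F : K[X][X]).degree < (μ.map (C : K →+* K[X])).degree := by
    apply lt_of_le_of_lt degree_C_le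
    rw [← natDegree_pos_iff_degree_pos, h1]
    omega
  have h4 : (μ.map C - C F : K[X][X]).leadingCoeff = C μ.leadingCoeff := by
    rw [leadingCoeff_sub_of_degree_lt h3, h2]
  have h5 : (μ.map C - C F : K[X][X]).natDegree = μ.natDegree := by
    rw [natDegree_sub_C, h1]
  have hc : (C μ.leadingCoeff⁻¹ : K[X]) ≠ 0 := by
    rw [Ne, C_eq_zero]
    exact inv_ne_zero (leadingCoeff_ne_zero.2 hμ0)
  constructor
  · rw [Monic, rel, leadingCoeff_mul, leadingCoeff_C, h4, ← C_mul,
      inv_mul_cancel₀ (leadingCoeff_ne_zero.2 hμ0), C_1]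
  · rw [rel, natDegree_C_mul hc, h5]

lemma sub2_rel (μ F R : K[X]) (h : μ.comp R = F.comp μ) : sub2 μ R (rel μ F) = 0 := by
  rw [rel, sub2, map_mul, map_sub]
  have h1 : (eval₂RingHom (compRingHom μ) R) (μ.map C) = μ.comp R := by
    rw [coe_eval₂RingHom, eval₂_map, comp]
    congr 1
    ext x
    simp [coe_compRingHom_apply]
  rw [h1]
  simp only [coe_eval₂RingHom, eval₂_C, coe_compRingHom_apply]
  rw [h, sub_self, mul_zero]

/-- evaluation at a point of the plane -/
noncomputable def evp (x₀ y₀ : K) : K[X][X] →+* K := eval₂RingHom (evalRingHom x₀) y₀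

lemma ker_sub2_le (μ F R : K[X]) (hμ : 1 ≤ μ.natDegree) (hR : 1 ≤ R.natDegree)
    (hco : Nat.Coprime μ.natDegree R.natDegree) (h : μ.comp R = F.comp μ) (x₀ y₀ : K)
    (hxy : F.eval x₀ = μ.eval y₀) (r : K[X][X]) (hr : sub2 μ R r = 0) : evp x₀ y₀ r = 0 := by
  obtain ⟨hm, hd⟩ := rel_monic μ F hμ
  have hdiv := modByMonic_add_div r (rel μ F)
  have h1 : sub2 μ R (r %ₘ rel μ F) = 0 := by
    have := congrArg (sub2 μ R) hdiv
    rw [map_add, map_mul, sub2_rel μ F R h, zero_mul, add_zero, hr] at this
    exact this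
  have h2 : (r %ₘ rel μ F).natDegree < μ.natDegree := by
    rw [← hd]
    exact natDegree_modByMonic_lt _ hm (by
      intro h0
      rw [h0] at hd
      simp at hd
      omega)
  have h3 := sub2_inj μ R hμ hR hco _ h2 h1
  rw [h3, zero_add] at hdiv
  rw [← hdiv, map_mul]
  have h4 : evp x₀ y₀ (rel μ F) = 0 := by
    rw [rel, evp, map_mul, map_sub]
    have h5 : (eval₂RingHom (evalRingHom x₀) y₀) (μ.map C) = μ.eval y₀ := by
      rw [coe_eval₂RingHom, eval₂_map, eval]
      congr 1
      ext x
      simp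
    rw [h5]
    simp only [coe_eval₂RingHom, eval₂_C, coe_evalRingHom]
    rw [hxy, sub_self, mul_zero]
  rw [h4, zero_mul]

lemma sub2_integral (μ R : K[X]) (hμ : 1 ≤ μ.natDegree) :
    ∀ f : K[X], (sub2 μ R).IsIntegralElem f := by
  have hμ0 : μ ≠ 0 := by
    rintro rfl
    simp at hμ
  have hC : ∀ c : K, (sub2 μ R).IsIntegralElem (C c) := by
    intro c
    have : (sub2 μ R) (C (C c)) = C c := by
      rw [sub2, coe_eval₂RingHom, eval₂_C, coe_compRingHom_apply, C_comp]
    rw [← this]
    exact RingHom.isIntegralElem_map _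
  have hX : (sub2 μ R).IsIntegralElem (X : K[X]) := by
    refine ⟨C (C (C μ.leadingCoeff⁻¹)) * (μ.map (C.comp C) - C (C X)), ?_, ?_⟩
    · have hinj : Function.Injective (C.comp C : K →+* K[X][X]) := by
        rw [RingHom.coe_comp]
        exact C_injective.comp C_injective
      have h1 : (μ.map (C.comp C : K →+* K[X][X])).natDegree = μ.natDegree := natDegree_map_eq_of_injective hinj μ
      have h2 : (μ.map (C.comp C : K →+* K[X][X])).leadingCoeff = C (C μ.leadingCoeff) := by
        rw [leadingCoeff_map_of_injective hinj]; rfl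
      have h3 : (C (C X) : K[X][X][X]).degree < (μ.map (C.comp C : K →+* K[X][X])).degree := by
        apply lt_of_le_of_lt degree_C_le
        rw [← natDegree_pos_iff_degree_pos, h1]
        omega
      rw [Monic, leadingCoeff_mul, leadingCoeff_C, leadingCoeff_sub_of_degree_lt h3, h2, ← C_mul, ← C_mul,
        inv_mul_cancel₀ (leadingCoeff_ne_zero.2 hμ0)]
      simp
    · rw [eval₂_mul, eval₂_sub, eval₂_map, eval₂_C, eval₂_C]
      have h1 : (sub2 μ R).comp (C.comp C) = (C : K →+* K[X]) := by
        ext c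
        simp [sub2, coe_compRingHom_apply]
      have h2 : (sub2 μ R) (C X) = μ := by
        rw [sub2, coe_eval₂RingHom, eval₂_C, coe_compRingHom_apply, X_comp]
      rw [h1, h2]
      have h3 : eval₂ C X μ = μ := eval₂_C_X
      rw [h3, sub_self, mul_zero]
  intro f
  induction f using Polynomial.induction_on' with
  | add p q hp hq => exact RingHom.IsIntegralElem.add _ hp hq
  | monomial n a =>
    rw [← C_mul_X_pow_eq_monomial]
    apply RingHom.IsIntegralElem.mul _ (hC a)
    induction n with
    | zero => rw [pow_zero, ← C_1]; exact hC 1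
    | succ n ih => rw [pow_succ]; exact RingHom.IsIntegralElem.mul _ ih hX

/-- Surjectivity: if `μ ∘ R = F ∘ μ` with `gcd(deg μ, deg R) = 1` and `F x₀ = μ y₀` then there is `z`
with `μ z = x₀` and `R z = y₀`. -/
lemma surj (μ F R : K[X]) (hμ : 1 ≤ μ.natDegree) (hR : 1 ≤ R.natDegree)
    (hco : Nat.Coprime μ.natDegree R.natDegree) (h : μ.comp R = F.comp μ) (x₀ y₀ : K)
    (hxy : F.eval x₀ = μ.eval y₀) : ∃ z, μ.eval z = x₀ ∧ R.eval z = y₀ := by
  let _ : Algebra K[X][X] K[X] := (sub2 μ R).toAlgebra
  have halg : algebraMap K[X][X] K[X] = sub2 μ R := rfl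
  have : Algebra.IsIntegral K[X][X] K[X] := ⟨fun f => sub2_integral μ R hμ f⟩
  set P : Ideal K[X][X] := RingHom.ker (evp x₀ y₀) with hP
  have hsurj : Function.Surjective (evp x₀ y₀) := by
    intro c
    refine ⟨C (C c), ?_⟩
    simp [evp]
  have : P.IsMaximal := RingHom.ker_isMaximal_of_surjective _ hsurj
  have hker : RingHom.ker (algebraMap K[X][X] K[X]) ≤ P := by
    intro r hr
    rw [halg, RingHom.mem_ker] at hr
    exact RingHom.mem_ker.2 (ker_sub2_le μ F R hμ hR hco h x₀ y₀ hxy r hr)
  obtain ⟨Q, hQm, hQ⟩ := Ideal.exists_ideal_over_maximal_of_isIntegral P hker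
  have e1 : μ - C x₀ ∈ Q := by
    have : (C X - C (C x₀) : K[X][X]) ∈ Q.comap (algebraMap K[X][X] K[X]) := by
      rw [hQ, hP, RingHom.mem_ker]
      simp [evp]
    rw [Ideal.mem_comap, halg] at this
    simpa [sub2, coe_compRingHom_apply] using this
  have e2 : R - C y₀ ∈ Q := by
    have : (X - C (C y₀) : K[X][X]) ∈ Q.comap (algebraMap K[X][X] K[X]) := by
      rw [hQ, hP, RingHom.mem_ker]
      simp [evp]
    rw [Ideal.mem_comap, halg] at this
    simpa [sub2, coe_compRingHom_apply] using this
  by_contra hcon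
  push Not at hcon
  have hcop : IsCoprime (μ - C x₀) (R - C y₀) := by
    rw [Polynomial.isCoprime_iff_aeval_ne_zero_of_isAlgClosed (k := K) K]
    intro z
    simp only [coe_aeval_eq_eval, eval_sub, eval_C]
    by_contra h3
    push Not at h3
    exact hcon z (sub_eq_zero.1 h3.1) (sub_eq_zero.1 h3.2)
  obtain ⟨a, b, hab⟩ := hcop
  apply hQm.ne_top
  rw [Ideal.eq_top_iff_one, ← hab]
  exact Q.add_mem (Q.mul_mem_left _ e1) (Q.mul_mem_left _ e2)

end NH66.Intertwine
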